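import Mathlib
import Pool.Agent.Work.MP_33c50c_an.Defs

set_option autoImplicit false

open MeasureTheory Set
open scoped ENNReal ContDiff

namespace Pool.Agent.Work.MP_33c50c_an.PK

open Pool.Agent.Work.MP_33c50c_an

/-- The point of the cylinder which a piece puts at the point `(x, y)` of its rectangle. The piece is
the part of the cylinder over the arc from `a` to `a + L`; it is reflected left-right if `sx`,
upside down if `sy`, and moved vertically by `c`. -/
noncomputable def place (a L : ℝ) (sx sy : Bool) (c x y : ℝ) : Cyl :=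
  ((((if sx then a + L - x else a + x) : ℝ) : AddCircle (2 * Real.pi)), if sy then c - y else y - c)

/-- A packing: `p` copies of `Ω` are cut along vertical segments (the `q`-th copy over the points
`t q 0 < t q 1 < ... < t q (n q) = t q 0 + 2π` of the circle), and the pieces are placed without
overlap in rectangles `(0, L ρ) × (0, H ρ)`, the piece `(q, i)` in the rectangle `r q i`, whose
width is the width of the piece. The rectangles are at least four times as wide as they are high. -/
structure Packing (Ω : Set Cyl) where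
  /-- number of copies -/
  p : ℕ
  /-- number of rectangles -/
  nR : ℕ
  /-- widths -/
  L : Fin nR → ℝ
  /-- heights -/
  H : Fin nR → ℝ
  /-- number of pieces of a copy -/
  n : Fin p → ℕ
  /-- the cuts -/
  t : Fin p → ℕ → ℝ
  /-- the rectangle of a piece -/
  r : Fin p → ℕ → Fin nR
  /-- left-right reflection -/
  sx : Fin p → ℕ → Bool
  /-- upside down reflection -/
  sy : Fin p → ℕ → Bool
  /-- vertical shift -/
  c : Fin p → ℕ → ℝ
  p_pos : 0 < p
  L_pos : ∀ ρ, 0 < L ρ
  H_nonneg : ∀ ρ, 0 ≤ H ρ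
  thin : ∀ ρ, 4 * H ρ ≤ L ρ
  around : ∀ q, t q (n q) = t q 0 + 2 * Real.pi
  width : ∀ q i, i < n q → t q (i + 1) = t q i + L (r q i)
  inside : ∀ q i, i < n q → ∀ x ∈ Ioo 0 (L (r q i)), ∀ y : ℝ,
    place (t q i) (L (r q i)) (sx q i) (sy q i) (c q i) x y ∈ Ω → 0 < y ∧ y < H (r q i)
  disj : ∀ q i q' i', i < n q → i' < n q' → (q, i) ≠ (q', i') → r q i = r q' i' →
    ∀ x ∈ Ioo 0 (L (r q i)), ∀ y : ℝ,
    ¬ (place (t q i) (L (r q i)) (sx q i) (sy q i) (c q i) x y ∈ Ω ∧
      place (t q' i') (L (r q' i')) (sx q' i') (sy q' i') (c q' i') x y ∈ Ω)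

/-- The bound for the number of eigenvalues `≤ lam`. -/
noncomputable def Packing.bound {Ω : Set Cyl} (P : Packing Ω) (lam : ℝ) : ℝ :=
  (∑ ρ, P.L ρ * Real.sqrt lam * max 0 (P.H ρ * Real.sqrt lam - 1 / 4)) / (4 * Real.pi * P.p)

/-- The domain between the graphs of `f` and `f + h`. -/
def graphDomain (f h : AddCircle (2 * Real.pi) → ℝ) : Set Cyl :=
  {p | f p.1 < p.2 ∧ p.2 < f p.1 + h p.1}

/-- (1) the counting function is at most the bound of any packing. -/
def SBound : Prop :=
  ∀ Ω : Set Cyl, IsOpen Ω → ∀ P : Packing Ω, ∀ k : ℕ, 1 ≤ k → ∀ lam : ℝ, 0 ≤ lam →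
    eigenvalue Ω k ≤ ENNReal.ofReal lam → (k : ℝ) ≤ P.bound lam

/-- (2) a packing without waste gives Polya's inequality for all eigenvalues. -/
def SPerfect : Prop :=
  ∀ Ω : Set Cyl, IsOpen Ω → ∀ P : Packing Ω,
    ENNReal.ofReal (∑ ρ, P.L ρ * P.H ρ) = P.p * volume Ω → SatisfiesPolya Ω

/-- (3) domains under the graph of a function whose restriction to each interval of a partition is
centrally symmetric (for example affine), the intervals being long compared with the height. -/
def SSym : Prop :=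
  ∀ h : AddCircle (2 * Real.pi) → ℝ, Continuous h → (∀ θ, 0 ≤ h θ) →
    ∀ (n : ℕ) (t : ℕ → ℝ), t n = t 0 + 2 * Real.pi →
    (∀ i < n, t i < t (i + 1) ∧
      4 * (h (t i : AddCircle (2 * Real.pi)) + h (t (i + 1) : AddCircle (2 * Real.pi))) ≤
        t (i + 1) - t i ∧
      ∀ x ∈ Icc (t i) (t (i + 1)),
        h (x : AddCircle (2 * Real.pi)) + h ((t i + t (i + 1) - x : ℝ) : AddCircle (2 * Real.pi)) =
        h (t i : AddCircle (2 * Real.pi)) + h (t (i + 1) : AddCircle (2 * Real.pi))) →
    SatisfiesPolya (graphDomain 0 h)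

/-- (4) all thin Lipschitz graph domains: the inequality for all eigenvalues up to
`1 / (128 s η)²`, and for all eigenvalues with a slightly larger area. -/
def SLip : Prop :=
  ∀ (f h : AddCircle (2 * Real.pi) → ℝ) (s η : ℝ), 0 < s → s ≤ 1 / 12 → 0 < η →
    η ≤ Real.pi / 4 → (∀ θ φ, |f θ - f φ| ≤ s * dist θ φ) → (∀ θ φ, |h θ - h φ| ≤ s * dist θ φ) →
    (∀ θ, 0 ≤ h θ ∧ h θ ≤ η) → ∀ k : ℕ, 1 ≤ k →
    (eigenvalue (graphDomain f h) k ≤ ENNReal.ofReal (1 / (128 * s * η) ^ 2) →
      ENNReal.ofReal (4 * Real.pi * k) / volume (graphDomain f h) ≤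
        eigenvalue (graphDomain f h) k) ∧
    ENNReal.ofReal (4 * Real.pi * k) / (volume (graphDomain f h) +
        ENNReal.ofReal (64 * Real.pi * s * η)) ≤ eigenvalue (graphDomain f h) k

/-- The statement. -/
def Statement : Prop := SBound ∧ SPerfect ∧ SSym ∧ SLip

end Pool.Agent.Work.MP_33c50c_an.PK
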