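import Pool.Agent.Work.MP_33c50c_an.PK.Stmts

set_option autoImplicit false

open MeasureTheory Set
open scoped ENNReal ContDiff

namespace Pool.Agent.Work.MP_33c50c_an.PK

theorem Bcos_int {H : ℝ} (hH : 0 < H) (k : ℤ) :
    ∫ y in (0:ℝ)..H, Real.cos (k * Real.pi * y / H) = if k = 0 then H else 0 := by
  split_ifs with hk
  · subst hk
    simp
  · have hc : (k * Real.pi / H : ℝ) ≠ 0 := by
      have h1 : (k : ℝ) ≠ 0 := by exact_mod_cast hk
      have h2 := Real.pi_ne_zero
      positivity
    have hd : ∀ y ∈ uIcc (0:ℝ) H, HasDerivAt (fun y : ℝ => Real.sin (k * Real.pi / H * y) /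
        (k * Real.pi / H)) (Real.cos (k * Real.pi * y / H)) y := by
      intro y _
      have h1 : HasDerivAt (fun y : ℝ => k * Real.pi / H * y) (k * Real.pi / H) y := by
        simpa using (hasDerivAt_id y).const_mul (k * Real.pi / H)
      have h2 := (h1.sin).div_const (k * Real.pi / H)
      have e : Real.cos (k * Real.pi * y / H)
          = Real.cos (k * Real.pi / H * y) * (k * Real.pi / H) / (k * Real.pi / H) := by
        rw [mul_div_cancel_right₀ _ hc]
        congr 1
        ring
      rw [e]
      exact h2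
    rw [intervalIntegral.integral_eq_sub_of_hasDerivAt hd]
    · have h1 : (k * Real.pi / H * H : ℝ) = k * Real.pi := by field_simp
      rw [h1, Real.sin_int_mul_pi]
      simp
    · apply Continuous.intervalIntegrable
      fun_prop

theorem Bcos_orth {H : ℝ} (hH : 0 < H) (m n : ℕ) :
    ∫ y in (0:ℝ)..H, Real.cos ((m + 1) * Real.pi * y / H) * Real.cos ((n + 1) * Real.pi * y / H)
      = if m = n then H / 2 else 0 := by
  have h1 : ∀ y : ℝ, Real.cos ((m + 1) * Real.pi * y / H) * Real.cos ((n + 1) * Real.pi * y / H)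
      = 1 / 2 * Real.cos (((m - n : ℤ) : ℝ) * Real.pi * y / H)
        + 1 / 2 * Real.cos (((m + n + 2 : ℤ) : ℝ) * Real.pi * y / H) := by
    intro y
    have e1 : ((m - n : ℤ) : ℝ) * Real.pi * y / H
        = (m + 1) * Real.pi * y / H - (n + 1) * Real.pi * y / H := by push_cast; ring
    have e2 : ((m + n + 2 : ℤ) : ℝ) * Real.pi * y / H
        = (m + 1) * Real.pi * y / H + (n + 1) * Real.pi * y / H := by push_cast; ring
    rw [e1, e2, Real.cos_sub, Real.cos_add]
    ring
  simp_rw [h1]
  rw [intervalIntegral.integral_add, intervalIntegral.integral_const_mul,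
    intervalIntegral.integral_const_mul, Bcos_int hH, Bcos_int hH]
  · have h2 : ¬ ((m : ℤ) + n + 2 = 0) := by omega
    rw [if_neg h2]
    by_cases h : m = n
    · subst h
      simp
      ring
    · have h3 : ¬ ((m : ℤ) - n = 0) := by omega
      rw [if_neg h3, if_neg h]
      simp
  · apply Continuous.intervalIntegrable
    fun_prop
  · apply Continuous.intervalIntegrable
    fun_prop

theorem Bcos_bessel {H : ℝ} (hH : 0 < H) (e : ℕ → ℝ → ℝ) (he : ∀ m, Continuous (e m))
    (ho : ∀ m n, ∫ y in (0:ℝ)..H, e m y * e n y = if m = n then H / 2 else 0)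
    (g : ℝ → ℝ) (hg : Continuous g) (K : ℕ) :
    ∃ r : ℝ → ℝ, Continuous r ∧
      (∫ y in (0:ℝ)..H, r y ^ 2 = (∫ y in (0:ℝ)..H, g y ^ 2)
        - ∑ m ∈ Finset.range K, 2 / H * (∫ y in (0:ℝ)..H, g y * e m y) ^ 2) ∧
      ∀ n, K ≤ n → ∫ y in (0:ℝ)..H, r y * e n y = ∫ y in (0:ℝ)..H, g y * e n y := by
  induction K with
  | zero => exact ⟨g, hg, by simp, fun n _ => rfl⟩
  | succ K ih =>
    obtain ⟨r, hr, h1, h2⟩ := ih
    set c := ∫ y in (0:ℝ)..H, g y * e K y with hc
    have hint : ∀ f : ℝ → ℝ, Continuous f → IntervalIntegrable f volume 0 H :=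
      fun f hf => hf.intervalIntegrable 0 H
    refine ⟨fun y => r y - 2 / H * c * e K y, hr.sub (continuous_const.mul (he K)), ?_, ?_⟩
    · have h3 : ∀ y, (r y - 2 / H * c * e K y) ^ 2
          = r y ^ 2 + (-(4 / H * c)) * (r y * e K y) + (2 / H * c) ^ 2 * (e K y * e K y) := by
        intro y
        ring
      simp_rw [h3]
      rw [intervalIntegral.integral_add, intervalIntegral.integral_add,
        intervalIntegral.integral_const_mul, intervalIntegral.integral_const_mul, h1, ho,
        h2 K le_rfl, if_pos rfl, Finset.sum_range_succ, ← hc]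
      · field_simp
        ring
      · exact hint _ (hr.pow 2)
      · exact hint _ (continuous_const.mul (hr.mul (he K)))
      · exact hint _ ((hr.pow 2).add (continuous_const.mul (hr.mul (he K))))
      · exact hint _ (continuous_const.mul ((he K).mul (he K)))
    · intro n hn
      have h3 : ∀ y, (r y - 2 / H * c * e K y) * e n y
          = r y * e n y + (-(2 / H * c)) * (e K y * e n y) := by
        intro y
        ring
      simp_rw [h3]
      rw [intervalIntegral.integral_add, intervalIntegral.integral_const_mul, ho,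
        if_neg (by omega), h2 n (by omega)]
      · simp
      · exact hint _ (hr.mul (he n))
      · exact hint _ (continuous_const.mul ((he K).mul (he n)))

theorem Bcos_proof : SBcos := by
  intro H hH g hg K
  obtain ⟨r, hr, h1, -⟩ := Bcos_bessel hH
    (fun m y => Real.cos ((m + 1) * Real.pi * y / H)) (fun m => by fun_prop)
    (fun m n => Bcos_orth hH m n) g hg K
  have h2 : 0 ≤ ∫ y in (0:ℝ)..H, r y ^ 2 :=
    intervalIntegral.integral_nonneg hH.le fun y _ => sq_nonneg _
  rw [h1] at h2
  linarith

end Pool.Agent.Work.MP_33c50c_an.PK
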