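import Pool.Agent.Work.MP_33c50c_an.PK.Stmts
import Pool.Agent.Work.MP_33c50c_an.Main

/-!
# Item Bound: the counting function is at most the bound of any packing
-/

set_option autoImplicit false

open MeasureTheory Set
open scoped ENNReal ContDiff

namespace Pool.Agent.Work.MP_33c50c_an.PK

open Pool.Agent.Work.MP_33c50c_an

theorem Bound_eps (h1 : SCount) (h2 : SLat) {Ω : Set Cyl} (hΩ : IsOpen Ω) (P : Packing Ω) {k : ℕ}
    (hk : 1 ≤ k) {lam : ℝ} (hlam : 0 ≤ lam) (hev : eigenvalue Ω k ≤ ENNReal.ofReal lam) {ε : ℝ}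
    (hε : 0 < ε) : (k : ℝ) ≤ P.bound (lam + ε) := by
  have hpi := Real.pi_pos
  have hlt : eigenvalue Ω k < ENNReal.ofReal (lam + ε) :=
    lt_of_le_of_lt hev ((ENNReal.ofReal_lt_ofReal_iff (by linarith)).2 (by linarith))
  unfold eigenvalue at hlt
  rw [iInf_lt_iff] at hlt
  obtain ⟨V, hcon⟩ := hlt
  rw [iInf_lt_iff] at hcon
  obtain ⟨⟨hV, hVk⟩, hcon⟩ := hcon
  set s := ⨆ (u : Cyl → ℝ) (_ : u ∈ V ∧ u ≠ 0), ENNReal.ofReal (energy u / mass u) with hs
  have hstop : s ≠ ⊤ := ne_top_of_lt hcon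
  have hlam' : s.toReal < lam + ε := by
    rw [← ENNReal.ofReal_toReal hstop] at hcon
    exact (ENNReal.ofReal_lt_ofReal_iff (by linarith)).mp hcon
  have hR : ∀ u ∈ V, energy u ≤ s.toReal * mass u := by
    intro u hu
    by_cases h0 : u = 0
    · rw [h0, energy_zero, mass_zero, mul_zero]
    · have hm := mass_pos (hV u hu) h0
      have h1 : ENNReal.ofReal (energy u / mass u) ≤ s :=
        le_iSup₂ (f := fun (u : Cyl → ℝ) (_ : u ∈ V ∧ u ≠ 0) => ENNReal.ofReal (energy u / mass u))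
          u ⟨hu, h0⟩
      have h2 : energy u / mass u ≤ s.toReal := (ENNReal.ofReal_le_iff_le_toReal hstop).mp h1
      rwa [div_le_iff₀ hm] at h2
  set μ := Real.sqrt (lam + ε) with hμ
  have hμ0 : 0 < μ := Real.sqrt_pos.2 (by linarith)
  have hμ2 : μ ^ 2 = lam + ε := Real.sq_sqrt (by linarith)
  choose S hS hSc using fun ρ => h2 (P.L ρ) (P.H ρ) μ (P.L_pos ρ) (P.H_nonneg ρ) (P.thin ρ) hμ0
  have hc := h1 Ω hΩ P V hV k hVk hk s.toReal μ hμ0 (by rw [hμ2]; exact hlam') hR S hS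
  have hc' : (P.p : ℝ) * k ≤ ∑ ρ, ((S ρ).card : ℝ) := by exact_mod_cast hc
  have hp : (0 : ℝ) < P.p := by exact_mod_cast P.p_pos
  unfold Packing.bound
  rw [← hμ, le_div_iff₀ (by positivity)]
  have h3 : ∑ ρ, ((S ρ).card : ℝ) ≤
      (∑ ρ, P.L ρ * μ * max 0 (P.H ρ * μ - 1 / 4)) / (4 * Real.pi) := by
    rw [Finset.sum_div]
    exact Finset.sum_le_sum fun ρ _ => hSc ρ
  have h4 := hc'.trans h3
  rw [le_div_iff₀ (by positivity)] at h4
  linarith

theorem Bound_cont {Ω : Set Cyl} (P : Packing Ω) (lam : ℝ) :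
    Continuous fun ε : ℝ => P.bound (lam + ε) := by
  unfold Packing.bound
  refine Continuous.div_const ?_ _
  refine continuous_finsetSum _ fun ρ _ => ?_
  have h : Continuous fun ε : ℝ => Real.sqrt (lam + ε) :=
    Real.continuous_sqrt.comp (continuous_const.add continuous_id)
  exact (continuous_const.mul h).mul
    (continuous_const.max ((continuous_const.mul h).sub continuous_const))

/-- Item Bound. -/
theorem Bound_proof (h1 : SCount) (h2 : SLat) : SBound := by
  intro Ω hΩ P k hk lam hlam hev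
  have h := (Bound_cont P lam).tendsto 0
  rw [add_zero] at h
  have h' : Filter.Tendsto (fun ε : ℝ => P.bound (lam + ε)) (nhdsWithin 0 (Ioi 0))
      (nhds (P.bound lam)) := h.mono_left nhdsWithin_le_nhds
  refine ge_of_tendsto h' ?_
  filter_upwards [self_mem_nhdsWithin] with ε hε
  exact Bound_eps h1 h2 hΩ P hk hlam hev hε

end Pool.Agent.Work.MP_33c50c_an.PK
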