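import Pool.Agent.Work.MP_33c50c_an.PK.Stmts

set_option autoImplicit false

open MeasureTheory Set
open scoped ENNReal ContDiff

namespace Pool.Agent.Work.MP_33c50c_an.PK

open Pool.Agent.Work.MP_33c50c_an

theorem Bsin_cos (H : ℝ) (hH : 0 < H) (j : ℤ) :
    ∫ y in (0:ℝ)..H, Real.cos (j * Real.pi * y / H) = if j = 0 then H else 0 := by
  by_cases hj : j = 0
  · subst hj; simp
  · rw [if_neg hj]
    have hc : (j : ℝ) * Real.pi / H ≠ 0 := by
      have : (j : ℝ) ≠ 0 := by exact_mod_cast hj
      positivity
    have h1 : ∀ y : ℝ, (j : ℝ) * Real.pi * y / H = (j : ℝ) * Real.pi / H * y := by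
      intro y; ring
    simp_rw [h1]
    rw [intervalIntegral.integral_comp_mul_left (fun y => Real.cos y) hc, integral_cos]
    have h2 : (j : ℝ) * Real.pi / H * H = j * Real.pi := by field_simp
    rw [h2, mul_zero, Real.sin_zero, Real.sin_int_mul_pi]
    simp

theorem Bsin_orth (H : ℝ) (hH : 0 < H) (m n : ℕ) :
    ∫ y in (0:ℝ)..H, Real.sin ((m + 1) * Real.pi * y / H) * Real.sin ((n + 1) * Real.pi * y / H) =
      if m = n then H / 2 else 0 := by
  have h1 : ∀ y : ℝ, Real.sin ((m + 1) * Real.pi * y / H) * Real.sin ((n + 1) * Real.pi * y / H) =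
      2⁻¹ * (Real.cos ((((m : ℤ) - n : ℤ) : ℝ) * Real.pi * y / H) -
        Real.cos ((((m : ℤ) + n + 2 : ℤ) : ℝ) * Real.pi * y / H)) := by
    intro y
    have e1 : (((m : ℤ) - n : ℤ) : ℝ) * Real.pi * y / H =
        (m + 1) * Real.pi * y / H - (n + 1) * Real.pi * y / H := by
      push_cast; ring
    have e2 : (((m : ℤ) + n + 2 : ℤ) : ℝ) * Real.pi * y / H =
        (m + 1) * Real.pi * y / H + (n + 1) * Real.pi * y / H := by
      push_cast; ring
    rw [e1, e2, Real.cos_sub, Real.cos_add]; ring
  simp_rw [h1]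
  rw [intervalIntegral.integral_const_mul, intervalIntegral.integral_sub, Bsin_cos H hH,
    Bsin_cos H hH]
  · have h3 : ¬ ((m : ℤ) + n + 2 = 0) := by omega
    rw [if_neg h3]
    by_cases h : m = n
    · subst h; simp; ring
    · have : ¬ ((m : ℤ) - n = 0) := by omega
      rw [if_neg this, if_neg h]; simp
  · exact (by fun_prop : Continuous _).intervalIntegrable _ _
  · exact (by fun_prop : Continuous _).intervalIntegrable _ _

theorem Bsin_proof : SBsin := by
  intro H hH g hg K
  set s : ℕ → ℝ → ℝ := fun m y => Real.sin ((m + 1) * Real.pi * y / H) with hs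
  have hsc : ∀ m, Continuous (s m) := by
    intro m; simp only [hs]; fun_prop
  set c : ℕ → ℝ := fun m => ∫ y in (0:ℝ)..H, g y * s m y with hc
  set S : ℝ → ℝ := fun y => ∑ m ∈ Finset.range K, (2 / H * c m) * s m y with hS
  have hSc : Continuous S := by
    simp only [hS]
    exact continuous_finsetSum _ fun m _ => continuous_const.mul (hsc m)
  have ii : ∀ f : ℝ → ℝ, Continuous f → IntervalIntegrable f volume 0 H := fun f hf =>
    hf.intervalIntegrable _ _
  have e1 : ∫ y in (0:ℝ)..H, g y * S y = ∑ m ∈ Finset.range K, 2 / H * c m ^ 2 := by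
    have : ∀ y, g y * S y = ∑ m ∈ Finset.range K, (2 / H * c m) * (g y * s m y) := by
      intro y; simp only [hS]; rw [Finset.mul_sum]
      exact Finset.sum_congr rfl fun m _ => by ring
    simp_rw [this]
    rw [intervalIntegral.integral_finsetSum]
    · refine Finset.sum_congr rfl fun m _ => ?_
      rw [intervalIntegral.integral_const_mul]
      simp only [hc]; ring
    · intro m _; exact ii _ (continuous_const.mul (hg.mul (hsc m)))
  have e2 : ∀ n ∈ Finset.range K, ∫ y in (0:ℝ)..H, S y * s n y = c n := by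
    intro n hn
    have : ∀ y, S y * s n y = ∑ m ∈ Finset.range K, (2 / H * c m) * (s m y * s n y) := by
      intro y; simp only [hS]; rw [Finset.sum_mul]
      exact Finset.sum_congr rfl fun m _ => by ring
    simp_rw [this]
    rw [intervalIntegral.integral_finsetSum]
    · rw [Finset.sum_eq_single n]
      · rw [intervalIntegral.integral_const_mul]
        simp only [hs]
        rw [Bsin_orth H hH, if_pos rfl]; field_simp
      · intro m _ hmn
        rw [intervalIntegral.integral_const_mul]
        simp only [hs]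
        rw [Bsin_orth H hH, if_neg hmn, mul_zero]
      · intro h; exact absurd hn h
    · intro m _; exact ii _ (continuous_const.mul ((hsc m).mul (hsc n)))
  have e3 : ∫ y in (0:ℝ)..H, S y * S y = ∑ m ∈ Finset.range K, 2 / H * c m ^ 2 := by
    have : ∀ y, S y * S y = ∑ m ∈ Finset.range K, (2 / H * c m) * (S y * s m y) := by
      intro y
      conv_lhs => rw [show S y * S y = S y * ∑ m ∈ Finset.range K, (2 / H * c m) * s m y from rfl]
      rw [Finset.mul_sum]
      exact Finset.sum_congr rfl fun m _ => by ring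
    simp_rw [this]
    rw [intervalIntegral.integral_finsetSum]
    · refine Finset.sum_congr rfl fun m hm => ?_
      rw [intervalIntegral.integral_const_mul, e2 m hm]; ring
    · intro m _; exact ii _ (continuous_const.mul (hSc.mul (hsc m)))
  have e4 : ∫ y in (0:ℝ)..H, (g y - S y) ^ 2 =
      (∫ y in (0:ℝ)..H, g y ^ 2) - ∑ m ∈ Finset.range K, 2 / H * c m ^ 2 := by
    have : ∀ y, (g y - S y) ^ 2 = g y ^ 2 - 2 * (g y * S y) + S y * S y := by intro y; ring
    simp_rw [this]
    rw [intervalIntegral.integral_add, intervalIntegral.integral_sub,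
      intervalIntegral.integral_const_mul, e1, e3]
    · ring
    · exact ii _ (hg.pow 2)
    · exact ii _ (continuous_const.mul (hg.mul hSc))
    · exact ii _ ((hg.pow 2).sub (continuous_const.mul (hg.mul hSc)))
    · exact ii _ (hSc.mul hSc)
  have e5 : 0 ≤ ∫ y in (0:ℝ)..H, (g y - S y) ^ 2 :=
    intervalIntegral.integral_nonneg hH.le fun y _ => sq_nonneg _
  have e6 : ∑ m ∈ Finset.range K, 2 / H * c m ^ 2 ≤ ∫ y in (0:ℝ)..H, g y ^ 2 := by linarith
  exact e6

end Pool.Agent.Work.MP_33c50c_an.PK
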