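import Pool.Agent.Work.MP_33c50c_an.PK.Stmts

set_option autoImplicit false

open MeasureTheory Set
open scoped ENNReal ContDiff

namespace Pool.Agent.Work.MP_33c50c_an.PK

open Pool.Agent.Work.MP_33c50c_an

theorem Comb_proof (h1 : SRect) (h2 : SWreg) (h3 : SWmass) (h4 : SWen) : SComb := by
  intro Ω hΩ P u hu μ hμ hc
  rw [h3 Ω hΩ P u hu, h4 Ω hΩ P u hu, Finset.mul_sum]
  refine Finset.sum_le_sum fun ρ _ => ?_
  obtain ⟨r1, r2, r3, r4, r5, r6⟩ := h2 Ω hΩ P u hu ρ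
  rcases (P.H_nonneg ρ).eq_or_lt with h | h
  · rw [← h]
    simp only [intervalIntegral.integral_same, intervalIntegral.integral_zero, mul_zero, le_refl]
  · exact h1 (P.L ρ) (P.H ρ) μ (P.L_pos ρ) h hμ (P.W u ρ) (P.Wx u ρ) (P.Wy u ρ) r1 r2 r3 r4 r5
      (fun x hx => ⟨r6 x hx 0 fun h => lt_irrefl _ h.1, r6 x hx _ fun h => lt_irrefl _ h.2⟩)
      (fun n m hm hlt => hc ρ n m hm hlt)

end Pool.Agent.Work.MP_33c50c_an.PK
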