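import Pool.Agent.Work.MP_33c50c_an.PK.Stmts
import Pool.Agent.Work.MP_33c50c_an.Var1

set_option autoImplicit false

open MeasureTheory Set

namespace Pool.Agent.Work.MP_33c50c_an.PK

open Pool.Agent.Work.MP_33c50c_an

/-- two opposite characters -/
lemma Cos_ph_add (ξ x : ℝ) : ph ξ x + ph ξ (-x) = ((2 * Real.cos (ξ * x) : ℝ) : ℂ) := by
  unfold ph
  push_cast
  rw [Complex.two_cos]
  have e1 : -(Complex.I * ((ξ : ℂ) * (x : ℂ))) = -((ξ : ℂ) * (x : ℂ)) * Complex.I := by ring
  have e2 : -(Complex.I * ((ξ : ℂ) * (-(x : ℂ)))) = ((ξ : ℂ) * (x : ℂ)) * Complex.I := by ring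
  rw [e1, e2, add_comm]

/-- folding an integral over a double interval -/
lemma Cos_fold {E : Type} [NormedAddCommGroup E] [NormedSpace ℝ E] (L : ℝ)
    (g : ℝ → E) (hg : Continuous g) :
    ∫ y in (0:ℝ)..(2 * L), g y = ∫ x in (0:ℝ)..L, (g x + g (2 * L - x)) := by
  have h1 : ∫ x in (0:ℝ)..L, g (2 * L - x) = ∫ x in L..(2 * L), g x := by
    rw [intervalIntegral.integral_comp_sub_left (fun x => g x) (2 * L)]
    congr 1 <;> ring
  have hg2 : Continuous fun x => g (2 * L - x) := hg.comp (by fun_prop)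
  rw [intervalIntegral.integral_add (hg.intervalIntegrable _ _)
    (hg2.intervalIntegrable _ _), h1,
    intervalIntegral.integral_add_adjacent_intervals (hg.intervalIntegrable _ _)
      (hg.intervalIntegrable _ _)]

theorem Cos_proof : SCos := by
  intro L hL a ha
  set f : ℝ → ℂ := fun x => ((a (L - |x - L|) : ℝ) : ℂ) with hf
  have hfc : Continuous f := by
    rw [hf]
    exact Complex.continuous_ofReal.comp (ha.comp (by fun_prop))
  have f1 : ∀ x ∈ Icc 0 L, f x = ((a x : ℝ) : ℂ) := by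
    intro x hx
    rw [hf]
    simp only
    rw [abs_of_nonpos (by linarith [hx.2])]
    congr 2
    ring
  have f2 : ∀ x ∈ Icc 0 L, f (2 * L - x) = ((a x : ℝ) : ℂ) := by
    intro x hx
    rw [hf]
    simp only
    rw [abs_of_nonneg (by linarith [hx.2])]
    congr 2
    ring
  have key := parseval_interval (2 * L) (by positivity) f hfc
  have hI : ∀ m : ℤ, ∫ y in (0:ℝ)..(2 * L), ph (2 * Real.pi / (2 * L) * m) y * f y =
      ((2 * (∫ x in (0:ℝ)..L, a x * Real.cos (m * Real.pi * x / L)) : ℝ) : ℂ) := by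
    intro m
    rw [Cos_fold L (fun y => ph (2 * Real.pi / (2 * L) * m) y * f y)
      ((ph_continuous _).mul hfc), ← intervalIntegral.integral_const_mul,
      ← intervalIntegral.integral_ofReal]
    apply intervalIntegral.integral_congr
    intro x hx
    rw [uIcc_of_le hL.le] at hx
    simp only
    rw [f1 x hx, f2 x hx, show 2 * L - x = 2 * L + -x by ring, ph_add_right,
      ph_eq_one (2 * Real.pi / (2 * L) * m) (2 * L) m (by field_simp), one_mul, ← add_mul,
      Cos_ph_add, show 2 * Real.pi / (2 * L) * m * x = m * Real.pi * x / L by field_simp]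
    push_cast
    ring
  have hN : ∫ y in (0:ℝ)..(2 * L), ‖f y‖ ^ 2 = 2 * ∫ x in (0:ℝ)..L, a x ^ 2 := by
    rw [Cos_fold L (fun y => ‖f y‖ ^ 2) (by fun_prop), ← intervalIntegral.integral_const_mul]
    apply intervalIntegral.integral_congr
    intro x hx
    rw [uIcc_of_le hL.le] at hx
    simp only
    rw [f1 x hx, f2 x hx, Complex.norm_real, Real.norm_eq_abs, sq_abs]
    ring
  rw [hN] at key
  simp_rw [hI] at key
  have hF : ∀ m : ℤ, ‖((2 * (∫ x in (0:ℝ)..L, a x * Real.cos (m * Real.pi * x / L)) : ℝ) : ℂ)‖ ^ 2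
      = 4 * (∫ x in (0:ℝ)..L, a x * Real.cos (m * Real.pi * x / L)) ^ 2 := by
    intro m
    rw [Complex.norm_real, Real.norm_eq_abs, sq_abs]
    ring
  simp_rw [hF] at key
  have k2 := key.nat_add_neg
  have k3 := k2.sub (hasSum_ite_eq (0 : ℕ)
    (4 * (∫ x in (0:ℝ)..L, a x * Real.cos (((0 : ℤ) : ℝ) * Real.pi * x / L)) ^ 2))
  have k4 := k3.mul_left (1 / (4 * L))
  have e1 : 1 / (4 * L) *
      (2 * L * (2 * ∫ x in (0:ℝ)..L, a x ^ 2) +
        4 * (∫ x in (0:ℝ)..L, a x * Real.cos (((0 : ℤ) : ℝ) * Real.pi * x / L)) ^ 2 -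
        4 * (∫ x in (0:ℝ)..L, a x * Real.cos (((0 : ℤ) : ℝ) * Real.pi * x / L)) ^ 2) =
      ∫ x in (0:ℝ)..L, a x ^ 2 := by
    rw [add_sub_cancel_right]
    field_simp
    ring
  rw [e1] at k4
  have e3 : (fun n : ℕ => (if n = 0 then 1 else 2) / L *
      (∫ x in (0:ℝ)..L, a x * Real.cos (n * Real.pi * x / L)) ^ 2) = fun i : ℕ => 1 / (4 * L) *
        (4 * (∫ x in (0:ℝ)..L, a x * Real.cos (((i : ℤ) : ℝ) * Real.pi * x / L)) ^ 2 +
            4 * (∫ x in (0:ℝ)..L, a x * Real.cos (((-(i : ℤ) : ℤ) : ℝ) * Real.pi * x / L)) ^ 2 -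
          if i = 0 then 4 * (∫ x in (0:ℝ)..L,
            a x * Real.cos (((0 : ℤ) : ℝ) * Real.pi * x / L)) ^ 2 else 0) := by
    funext n
    have e2 : (∫ x in (0:ℝ)..L, a x * Real.cos (((-(n : ℤ) : ℤ) : ℝ) * Real.pi * x / L)) =
        ∫ x in (0:ℝ)..L, a x * Real.cos (n * Real.pi * x / L) := by
      congr 1
      funext x
      rw [← Real.cos_neg]
      congr 2
      push_cast
      ring
    rw [e2, Int.cast_natCast]
    by_cases hn : n = 0
    · subst hn
      rw [if_pos rfl, if_pos rfl, Int.cast_zero, Nat.cast_zero]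
      field_simp
      ring
    · rw [if_neg hn, if_neg hn]
      field_simp
      ring
  rw [e3]
  exact k4

end Pool.Agent.Work.MP_33c50c_an.PK
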