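import Pool.Agent.Work.MP_33c50c_an.PK.Stmts
import Pool.Agent.Work.MP_33c50c_an.Cyl2

set_option autoImplicit false

open MeasureTheory Set
open scoped ENNReal ContDiff

namespace Pool.Agent.Work.MP_33c50c_an.PK

open Pool.Agent.Work.MP_33c50c_an

lemma Count_mass_pos {Ω : Set Cyl} {u : Cyl → ℝ} (hu : IsTest Ω u) (hne : u ≠ 0) : 0 < mass u := by
  obtain ⟨x, hx⟩ := Function.ne_iff.mp hne
  have hc := cont_f u (test_lft hu)
  apply Continuous.integral_pos_of_hasCompactSupport_nonneg_nonzero (x := x) (hc.pow 2)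
  · apply HasCompactSupport.of_support_subset_isCompact hu.2.1
    intro p hp
    apply subset_tsupport
    intro h
    apply hp
    show u p ^ 2 = 0
    rw [h]; simp
  · intro p; exact sq_nonneg (u p)
  · exact pow_ne_zero 2 hx

lemma Count_mass_nonneg (u : Cyl → ℝ) : 0 ≤ mass u := integral_nonneg (fun _ => sq_nonneg _)

lemma Count_dint_add (a b : ℝ) (F G : ℝ → ℝ → ℝ) (hF : Continuous fun q : ℝ × ℝ => F q.1 q.2)
    (hG : Continuous fun q : ℝ × ℝ => G q.1 q.2) :
    ∫ x in (0:ℝ)..a, ∫ y in (0:ℝ)..b, (F x y + G x y) =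
      (∫ x in (0:ℝ)..a, ∫ y in (0:ℝ)..b, F x y) + ∫ x in (0:ℝ)..a, ∫ y in (0:ℝ)..b, G x y := by
  have h1 : ∀ x, (∫ y in (0:ℝ)..b, (F x y + G x y)) =
      (∫ y in (0:ℝ)..b, F x y) + ∫ y in (0:ℝ)..b, G x y := by
    intro x
    apply intervalIntegral.integral_add
    · exact (hF.comp (Continuous.prodMk_right x)).intervalIntegrable _ _
    · exact (hG.comp (Continuous.prodMk_right x)).intervalIntegrable _ _
  simp_rw [h1]
  apply intervalIntegral.integral_add
  · exact (intervalIntegral.continuous_parametric_intervalIntegral_of_continuous' (f := F) hF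
      0 b).intervalIntegrable _ _
  · exact (intervalIntegral.continuous_parametric_intervalIntegral_of_continuous' (f := G) hG
      0 b).intervalIntegrable _ _

lemma Count_W_add {Ω : Set Cyl} (P : Packing Ω) (u v : Fin P.p → Cyl → ℝ) (ρ : Fin P.nR)
    (x y : ℝ) : P.W (fun q => u q + v q) ρ x y = P.W u ρ x y + P.W v ρ x y := by
  unfold Packing.W
  rw [← Finset.sum_add_distrib]
  apply Finset.sum_congr rfl; intro q _
  rw [← Finset.sum_add_distrib]
  apply Finset.sum_congr rfl; intro i _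
  split_ifs
  · rfl
  · simp

lemma Count_W_smul {Ω : Set Cyl} (P : Packing Ω) (c : ℝ) (u : Fin P.p → Cyl → ℝ) (ρ : Fin P.nR)
    (x y : ℝ) : P.W (fun q => c • u q) ρ x y = c * P.W u ρ x y := by
  unfold Packing.W
  rw [Finset.mul_sum]
  apply Finset.sum_congr rfl; intro q _
  rw [Finset.mul_sum]
  apply Finset.sum_congr rfl; intro i _
  split_ifs
  · rfl
  · simp

lemma Count_coef_add {Ω : Set Cyl} (P : Packing Ω) (u v : Fin P.p → Cyl → ℝ) (ρ : Fin P.nR)
    (n m : ℕ) (hu : Continuous fun q : ℝ × ℝ => P.W u ρ q.1 q.2)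
    (hv : Continuous fun q : ℝ × ℝ => P.W v ρ q.1 q.2) :
    P.coef (fun q => u q + v q) ρ n m = P.coef u ρ n m + P.coef v ρ n m := by
  unfold Packing.coef
  rw [← Count_dint_add (P.L ρ) (P.H ρ)
    (fun x y => P.W u ρ x y *
      (Real.cos (n * Real.pi * x / P.L ρ) * Real.sin (m * Real.pi * y / P.H ρ)))
    (fun x y => P.W v ρ x y *
      (Real.cos (n * Real.pi * x / P.L ρ) * Real.sin (m * Real.pi * y / P.H ρ)))]
  · congr 1; ext x; congr 1; ext y
    rw [Count_W_add]; ring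
  · apply hu.mul; fun_prop
  · apply hv.mul; fun_prop

lemma Count_coef_smul {Ω : Set Cyl} (P : Packing Ω) (c : ℝ) (u : Fin P.p → Cyl → ℝ)
    (ρ : Fin P.nR) (n m : ℕ) :
    P.coef (fun q => c • u q) ρ n m = c * P.coef u ρ n m := by
  unfold Packing.coef
  rw [← intervalIntegral.integral_const_mul]
  congr 1; ext x
  rw [← intervalIntegral.integral_const_mul]
  congr 1; ext y
  rw [Count_W_smul]; ring

/-- the linear map of the coefficients. -/
noncomputable def Count_Lam (h2 : SWreg) {Ω : Set Cyl} (hΩ : IsOpen Ω) (P : Packing Ω)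
    (V : Submodule ℝ (Cyl → ℝ)) (hV : ∀ u ∈ V, IsTest Ω u) (S : Fin P.nR → Finset (ℕ × ℕ)) :
    (Fin P.p → V) →ₗ[ℝ] ((Σ ρ : Fin P.nR, S ρ) → ℝ) where
  toFun w s := P.coef (fun q => (w q : Cyl → ℝ)) s.1 s.2.1.1 s.2.1.2
  map_add' w v := by
    ext s
    exact Count_coef_add P (fun q => (w q : Cyl → ℝ)) (fun q => (v q : Cyl → ℝ)) s.1 _ _
      (h2 Ω hΩ P _ (fun q => hV _ (w q).2) s.1).1 (h2 Ω hΩ P _ (fun q => hV _ (v q).2) s.1).1
  map_smul' c w := by
    ext s
    exact Count_coef_smul P c (fun q => (w q : Cyl → ℝ)) s.1 _ _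

theorem Count_proof (h : SComb) (h2 : SWreg) : SCount := by
  intro Ω hΩ P V hV k hk hk1 lam μ hμ hlam hR S hS
  by_contra hcard
  rw [not_le] at hcard
  have hfin : FiniteDimensional ℝ V := Module.finite_of_finrank_pos (by omega)
  have hd1 : Module.finrank ℝ (Fin P.p → V) = P.p * k := by
    rw [Module.finrank_pi_fintype]
    simp [hk]
  have hd2 : Module.finrank ℝ ((Σ ρ : Fin P.nR, S ρ) → ℝ) = ∑ ρ, (S ρ).card := by
    rw [Module.finrank_pi]
    simp
  have hker := LinearMap.ker_ne_bot_of_finrank_lt (f := Count_Lam h2 hΩ P V hV S) (by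
    rw [hd1, hd2]; exact hcard)
  obtain ⟨w, hw, hw0⟩ := (Submodule.ne_bot_iff _).mp hker
  have hLam : ∀ s : (Σ ρ : Fin P.nR, S ρ),
      P.coef (fun q => (w q : Cyl → ℝ)) s.1 s.2.1.1 s.2.1.2 = 0 := fun s => by
    have h1 : Count_Lam h2 hΩ P V hV S w = 0 := hw
    exact congrFun h1 s
  have h3 := h Ω hΩ P (fun q => (w q : Cyl → ℝ)) (fun q => hV _ (w q).2) μ hμ
    (fun ρ n m hm hnm => hLam ⟨ρ, ⟨(n, m), hS ρ n m hm hnm⟩⟩)
  have hpos : 0 < ∑ q, mass (w q : Cyl → ℝ) := by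
    obtain ⟨i, hi⟩ := Function.ne_iff.mp hw0
    apply Finset.sum_pos' (fun i _ => Count_mass_nonneg _)
    refine ⟨i, Finset.mem_univ i, ?_⟩
    have h4 : (w i : Cyl → ℝ) ≠ 0 := fun h => hi (Subtype.ext h)
    exact Count_mass_pos (hV _ (w i).2) h4
  have hle : ∑ q, energy (w q : Cyl → ℝ) ≤ lam * ∑ q, mass (w q : Cyl → ℝ) := by
    rw [Finset.mul_sum]
    exact Finset.sum_le_sum fun q _ => hR _ (w q).2
  have h5 : lam * ∑ q, mass (w q : Cyl → ℝ) < μ ^ 2 * ∑ q, mass (w q : Cyl → ℝ) :=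
    mul_lt_mul_of_pos_right hlam hpos
  linarith

end Pool.Agent.Work.MP_33c50c_an.PK
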