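import Pool.Agent.Work.MP_33c50c_an.PK.Stmts

set_option autoImplicit false

open MeasureTheory Set
open scoped ENNReal ContDiff

namespace Pool.Agent.Work.MP_33c50c_an.PK

open Pool.Agent.Work.MP_33c50c_an

/-- lattice points in a thin ellipse, from the elementary inequality. -/
theorem Lat_proof (h : SLat1) : SLat := by
  intro L H μ hL hH hHL hμ
  have hpi := Real.pi_pos
  by_cases hc : H * μ ≤ Real.pi
  · refine ⟨∅, ?_, ?_⟩
    · intro n m hm hlt
      exfalso
      have h1 : μ * L * H / Real.pi ≤ L := by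
        rw [div_le_iff₀ hpi]
        nlinarith
      have h2 : 0 ≤ μ * L * H / Real.pi := by positivity
      have h3 : (1 : ℝ) ≤ m := by exact_mod_cast hm
      have h4 : L ≤ m * L := by nlinarith
      have h5 : (μ * L * H / Real.pi) ^ 2 ≤ L ^ 2 := pow_le_pow_left₀ h2 h1 2
      have h6 : L ^ 2 ≤ (m * L) ^ 2 := pow_le_pow_left₀ hL.le h4 2
      nlinarith [sq_nonneg ((n : ℝ) * H)]
    · simp only [Finset.card_empty, Nat.cast_zero]
      positivity
  · have hc' : Real.pi < H * μ := not_le.1 hc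
    have hH0 : 0 < H := by
      rcases hH.lt_or_eq with h1 | h1
      · exact h1
      · rw [← h1, zero_mul] at hc'
        exact absurd hc' (not_lt.2 hpi.le)
    obtain ⟨M, hM⟩ : ∃ M : ℝ, M = H * μ / Real.pi := ⟨_, rfl⟩
    have hM1 : 1 < M := by
      rw [hM, lt_div_iff₀ hpi]
      linarith
    obtain ⟨K, hK⟩ : ∃ K : ℕ, ⌈M⌉₊ = K + 1 := by
      have h1 : 0 < ⌈M⌉₊ := Nat.ceil_pos.2 (by linarith)
      exact ⟨⌈M⌉₊ - 1, by omega⟩
    have hMK : M ≤ K + 1 := by
      have := Nat.le_ceil M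
      rw [hK] at this
      exact_mod_cast this
    have hKM : (K : ℝ) < M := by
      have := (Nat.lt_ceil (n := K) (a := M)).1 (by omega)
      exact this
    have hK1 : 1 ≤ K := by
      by_contra h1
      have h2 : K = 0 := by omega
      rw [h2] at hMK
      norm_num at hMK
      linarith
    have hlat := h K (M - K) hK1 (by linarith) (by linarith)
    have e1 : (K : ℝ) + (M - K) = M := by ring
    rw [e1] at hlat
    have hr4 : 4 ≤ L / H := by
      rw [le_div_iff₀ hH0]
      exact hHL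
    have hr0 : 0 < L / H := by linarith
    have eM : μ * L * H / Real.pi = L * M := by
      rw [hM]
      ring
    refine ⟨(Finset.Icc 1 K).biUnion (fun m =>
      (Finset.range ⌈L / H * Real.sqrt (M ^ 2 - (m : ℝ) ^ 2)⌉₊).image (fun n => (n, m))), ?_, ?_⟩
    · intro n m hm hlt
      rw [eM] at hlt
      have hm0 : (0 : ℝ) ≤ m := Nat.cast_nonneg m
      have h1 : ((m : ℝ) * L) ^ 2 < (L * M) ^ 2 := by
        nlinarith [sq_nonneg ((n : ℝ) * H)]
      have h2 : (m : ℝ) * L < L * M := lt_of_pow_lt_pow_left₀ 2 (by positivity) h1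
      have h3 : (m : ℝ) < M := by
        by_contra h4
        have h5 : M ≤ m := not_lt.1 h4
        nlinarith
      have h4 : m ≤ K := by
        have h5 : (m : ℝ) < K + 1 := lt_of_lt_of_le h3 hMK
        have h6 : m < K + 1 := by exact_mod_cast h5
        omega
      rw [Finset.mem_biUnion]
      refine ⟨m, Finset.mem_Icc.2 ⟨hm, h4⟩, ?_⟩
      rw [Finset.mem_image]
      refine ⟨n, ?_, rfl⟩
      rw [Finset.mem_range, Nat.lt_ceil]
      have h5 : 0 ≤ M ^ 2 - (m : ℝ) ^ 2 := by nlinarith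
      have h6 : ((n : ℝ) * H) ^ 2 < (L * Real.sqrt (M ^ 2 - (m : ℝ) ^ 2)) ^ 2 := by
        rw [mul_pow L, Real.sq_sqrt h5]
        nlinarith
      have h7 : (n : ℝ) * H < L * Real.sqrt (M ^ 2 - (m : ℝ) ^ 2) :=
        lt_of_pow_lt_pow_left₀ 2 (by positivity) h6
      rw [div_mul_eq_mul_div, lt_div_iff₀ hH0]
      exact h7
    · have h1 : (((Finset.Icc 1 K).biUnion (fun m =>
          (Finset.range ⌈L / H * Real.sqrt (M ^ 2 - (m : ℝ) ^ 2)⌉₊).image
            (fun n => (n, m)))).card : ℝ) ≤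
          ∑ m ∈ Finset.Icc 1 K, (L / H * Real.sqrt (M ^ 2 - (m : ℝ) ^ 2) + 1) := by
        have h2 : ((Finset.Icc 1 K).biUnion (fun m =>
          (Finset.range ⌈L / H * Real.sqrt (M ^ 2 - (m : ℝ) ^ 2)⌉₊).image
            (fun n => (n, m)))).card ≤
            ∑ m ∈ Finset.Icc 1 K, ⌈L / H * Real.sqrt (M ^ 2 - (m : ℝ) ^ 2)⌉₊ := by
          refine Finset.card_biUnion_le.trans (Finset.sum_le_sum ?_)
          intro m _
          refine Finset.card_image_le.trans ?_
          rw [Finset.card_range]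
        calc _ ≤ ((∑ m ∈ Finset.Icc 1 K,
              ⌈L / H * Real.sqrt (M ^ 2 - (m : ℝ) ^ 2)⌉₊ : ℕ) : ℝ) := by exact_mod_cast h2
          _ = ∑ m ∈ Finset.Icc 1 K, ((⌈L / H * Real.sqrt (M ^ 2 - (m : ℝ) ^ 2)⌉₊ : ℕ) : ℝ) := by
              push_cast
              rfl
          _ ≤ _ := by
              refine Finset.sum_le_sum ?_
              intro m _
              exact (Nat.ceil_lt_add_one (by positivity)).le
      refine h1.trans ?_
      rw [Finset.sum_add_distrib, ← Finset.mul_sum]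
      simp only [Finset.sum_const, Nat.card_Icc, add_tsub_cancel_right, nsmul_eq_mul, mul_one]
      have hK0 : (0 : ℝ) ≤ K := Nat.cast_nonneg K
      have h3 : L / H * ∑ m ∈ Finset.Icc 1 K, Real.sqrt (M ^ 2 - (m : ℝ) ^ 2) + K ≤
          L / H * (Real.pi / 4 * M ^ 2 - M / 16) := by
        have h4 : (K : ℝ) ≤ L / H * (K / 4) := by nlinarith
        have h5 : L / H * (∑ m ∈ Finset.Icc 1 K, Real.sqrt (M ^ 2 - (m : ℝ) ^ 2) + K / 4) ≤
            L / H * (Real.pi / 4 * M ^ 2 - M / 16) :=
          mul_le_mul_of_nonneg_left (by linarith) hr0.le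
        nlinarith
      refine h3.trans ?_
      have h6 : L / H * (Real.pi / 4 * M ^ 2 - M / 16) =
          L * μ * (H * μ - 1 / 4) / (4 * Real.pi) := by
        rw [hM]
        field_simp
        ring
      rw [h6]
      apply div_le_div_of_nonneg_right _ (by positivity)
      exact mul_le_mul_of_nonneg_left (le_max_right _ _) (by positivity)

end Pool.Agent.Work.MP_33c50c_an.PK
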