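import Pool.Agent.Work.MP_33c50c_an.PK.Stmts

set_option autoImplicit false

open MeasureTheory Set intervalIntegral

namespace Pool.Agent.Work.MP_33c50c_an.PK

lemma Lat1_half : ∫ x in (0:ℝ)..1, √(1 - x ^ 2) = Real.pi / 4 := by
  have h := integral_sqrt_one_sub_sq
  have hc : Continuous (fun x : ℝ => √(1 - x ^ 2)) := by fun_prop
  have h1 : (∫ x in (-1:ℝ)..0, √(1 - x ^ 2)) + ∫ x in (0:ℝ)..1, √(1 - x ^ 2)
      = ∫ x in (-1:ℝ)..1, √(1 - x ^ 2) :=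
    integral_add_adjacent_intervals (hc.intervalIntegrable _ _) (hc.intervalIntegrable _ _)
  have h2 : ∫ x in (0:ℝ)..1, √(1 - (-x) ^ 2) = ∫ x in (-1:ℝ)..(-0), √(1 - x ^ 2) :=
    integral_comp_neg (fun x : ℝ => √(1 - x ^ 2))
  simp only [neg_zero, even_two, Even.neg_pow] at h2
  linarith

lemma Lat1_area (M : ℝ) (hM : 0 ≤ M) :
    ∫ t in (0:ℝ)..M, √(M ^ 2 - t ^ 2) = Real.pi / 4 * M ^ 2 := by
  have h := mul_integral_comp_mul_left (a := (0:ℝ)) (b := 1)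
    (f := fun t : ℝ => √(M ^ 2 - t ^ 2)) (c := M)
  rw [mul_zero, mul_one] at h
  rw [← h]
  have e : ∀ x : ℝ, √(M ^ 2 - (M * x) ^ 2) = M * √(1 - x ^ 2) := by
    intro x
    rw [show M ^ 2 - (M * x) ^ 2 = M ^ 2 * (1 - x ^ 2) by ring, Real.sqrt_mul (sq_nonneg M),
      Real.sqrt_sq hM]
  simp only [e]
  rw [intervalIntegral.integral_const_mul, Lat1_half]
  ring

/-- the graph of the arc lies above its chords -/
lemma Lat1_chord (M u v x : ℝ) (hu : u ^ 2 ≤ M ^ 2) (hv : v ^ 2 ≤ M ^ 2) (hx0 : 0 ≤ x)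
    (hx1 : x ≤ 1) :
    (1 - x) * √(M ^ 2 - u ^ 2) + x * √(M ^ 2 - v ^ 2) ≤
      √(M ^ 2 - ((1 - x) * u + x * v) ^ 2) := by
  apply Real.le_sqrt_of_sq_le
  have h1 : √(M ^ 2 - u ^ 2) ^ 2 = M ^ 2 - u ^ 2 := Real.sq_sqrt (by linarith)
  have h2 : √(M ^ 2 - v ^ 2) ^ 2 = M ^ 2 - v ^ 2 := Real.sq_sqrt (by linarith)
  have h3 : √(M ^ 2 - u ^ 2) * √(M ^ 2 - v ^ 2) + u * v ≤ M ^ 2 := by
    nlinarith [sq_nonneg (√(M ^ 2 - u ^ 2) - √(M ^ 2 - v ^ 2)), sq_nonneg (u - v)]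
  have h4 : 0 ≤ x * (1 - x) := mul_nonneg hx0 (by linarith)
  nlinarith [mul_le_mul_of_nonneg_left h3 h4]

lemma Lat1_lin (m α β : ℝ) :
    ∫ t in m..(m + 1), ((1 - (t - m)) * α + (t - m) * β) = (α + β) / 2 := by
  have h : ∀ t ∈ Set.uIcc m (m + 1), HasDerivAt
      (fun t : ℝ => (t - (t - m) ^ 2 / 2) * α + ((t - m) ^ 2 / 2) * β)
      ((1 - (t - m)) * α + (t - m) * β) t := by
    intro t _
    have h1 : HasDerivAt (fun t : ℝ => t - m) 1 t := (hasDerivAt_id t).sub_const m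
    have h2 : HasDerivAt (fun t : ℝ => (t - m) ^ 2 / 2) (t - m) t := by
      have := (h1.pow 2).div_const 2
      simpa using this
    have h3 := ((hasDerivAt_id t).sub h2).mul_const α
    have h4 := h2.mul_const β
    exact h3.add h4
  rw [integral_eq_sub_of_hasDerivAt h]
  · ring
  · apply Continuous.intervalIntegrable
    fun_prop

lemma Lat1_trap (M m : ℝ) (hm : 0 ≤ m) (hM : m + 1 ≤ M) :
    (√(M ^ 2 - m ^ 2) + √(M ^ 2 - (m + 1) ^ 2)) / 2 ≤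
      ∫ t in m..(m + 1), √(M ^ 2 - t ^ 2) := by
  rw [← Lat1_lin m]
  apply integral_mono_on (by linarith)
  · apply Continuous.intervalIntegrable
    fun_prop
  · apply Continuous.intervalIntegrable
    fun_prop
  · intro t ht
    have hu : m ^ 2 ≤ M ^ 2 := by nlinarith
    have hv : (m + 1) ^ 2 ≤ M ^ 2 := by nlinarith
    have h := Lat1_chord M m (m + 1) (t - m) hu hv (by linarith [ht.1]) (by linarith [ht.2])
    have e : (1 - (t - m)) * m + (t - m) * (m + 1) = t := by ring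
    rwa [e] at h

lemma Lat1_sqrt (b : ℝ) (hb : 0 ≤ b) : ∫ u in (0:ℝ)..b, √u = 2 / 3 * b * √b := by
  simp only [Real.sqrt_eq_rpow]
  rw [integral_rpow (Or.inl (by norm_num))]
  rcases hb.eq_or_lt with h | h
  · rw [← h]
    norm_num
  · rw [Real.zero_rpow (by norm_num), Real.rpow_add h, Real.rpow_one]
    ring

lemma Lat1_last (K b : ℝ) (hK : 0 ≤ K) (hb : 0 ≤ b) :
    2 / 3 * b * √((K + b) ^ 2 - K ^ 2) ≤ ∫ t in K..(K + b), √((K + b) ^ 2 - t ^ 2) := by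
  have h1 : ∫ t in K..(K + b), √(K + b - t) = 2 / 3 * b * √b := by
    have := integral_comp_sub_left (a := K) (b := K + b) (fun u : ℝ => √u) (K + b)
    rw [this, sub_self, add_sub_cancel_left, Lat1_sqrt b hb]
  have h2 : √((K + b) ^ 2 - K ^ 2) = √(2 * K + b) * √b := by
    rw [← Real.sqrt_mul (by linarith)]
    congr 1
    ring
  have h3 : 2 / 3 * b * √((K + b) ^ 2 - K ^ 2)
      = ∫ t in K..(K + b), √(2 * K + b) * √(K + b - t) := by
    rw [intervalIntegral.integral_const_mul, h1, h2]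
    ring
  rw [h3]
  apply integral_mono_on (by linarith)
  · apply Continuous.intervalIntegrable
    fun_prop
  · apply Continuous.intervalIntegrable
    fun_prop
  · intro t ht
    rw [← Real.sqrt_mul (by linarith)]
    apply Real.sqrt_le_sqrt
    nlinarith [ht.1, ht.2, mul_nonneg (sub_nonneg.2 ht.1) (sub_nonneg.2 ht.2)]

lemma Lat1_poly (K b S : ℝ) (hK : 1 ≤ K) (hb0 : 0 < b) (hb1 : b ≤ 1) (hS : 0 ≤ S)
    (hS2 : S ^ 2 = b * (2 * K + b)) : S * (1 / 2 - 2 * b / 3) ≤ (3 * K + 7 * b) / 16 := by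
  rcases le_or_gt (1 / 2 - 2 * b / 3) 0 with h | h
  · have h1 : S * (1 / 2 - 2 * b / 3) ≤ 0 := mul_nonpos_of_nonneg_of_nonpos hS h
    have h2 : 0 ≤ (3 * K + 7 * b) / 16 := by linarith
    linarith
  · have hR : 0 ≤ (3 * K + 7 * b) / 16 := by linarith
    refine le_of_pow_le_pow_left₀ (two_ne_zero) hR ?_
    obtain ⟨e, he, rfl⟩ : ∃ e : ℝ, 0 ≤ e ∧ K = 1 + e := ⟨K - 1, by linarith, by ring⟩
    have c1 : 0 ≤ 162 - 774 * b + 3072 * b ^ 2 - 2048 * b ^ 3 := by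
      have h3 : b ^ 3 ≤ b ^ 2 := by nlinarith [sq_nonneg b]
      nlinarith [sq_nonneg (b - 387 / 1024)]
    have c0 : 0 ≤ 81 - 774 * b + 2937 * b ^ 2 - 512 * b ^ 3 - 1024 * b ^ 4 := by
      rcases le_or_gt b (1 / 2) with h5 | h5
      · have h3 : b ^ 3 ≤ b ^ 2 / 2 := by nlinarith [sq_nonneg b]
        have h4 : b ^ 4 ≤ b ^ 2 / 4 := by nlinarith [sq_nonneg b, sq_nonneg (b ^ 2)]
        nlinarith [sq_nonneg (b - 387 / 2425)]
      · have h3 : b ^ 3 ≤ b ^ 2 := by nlinarith [sq_nonneg b]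
        have h4 : b ^ 4 ≤ b ^ 2 := by nlinarith [sq_nonneg b, sq_nonneg (b ^ 2)]
        nlinarith
    have key : 0 ≤ 81 * e ^ 2 + e * (162 - 774 * b + 3072 * b ^ 2 - 2048 * b ^ 3)
        + (81 - 774 * b + 2937 * b ^ 2 - 512 * b ^ 3 - 1024 * b ^ 4) := by positivity
    have e1 : (S * (1 / 2 - 2 * b / 3)) ^ 2
        = b * (2 * (1 + e) + b) * (1 / 2 - 2 * b / 3) ^ 2 := by
      rw [mul_pow, hS2]
    rw [e1]
    nlinarith [key]

theorem Lat1_proof : SLat1 := by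
  intro K b hK hb0 hb1
  have hKr : (1 : ℝ) ≤ K := by exact_mod_cast hK
  set M : ℝ := K + b with hM
  have hc : Continuous (fun t : ℝ => √(M ^ 2 - t ^ 2)) := by fun_prop
  have harea := Lat1_area M (by linarith)
  have hsplit : (∫ t in (0:ℝ)..K, √(M ^ 2 - t ^ 2)) + ∫ t in (K:ℝ)..M, √(M ^ 2 - t ^ 2)
      = ∫ t in (0:ℝ)..M, √(M ^ 2 - t ^ 2) :=
    integral_add_adjacent_intervals (hc.intervalIntegrable _ _) (hc.intervalIntegrable _ _)
  have hsum : ∑ k ∈ Finset.range K, ∫ t in ((k : ℕ) : ℝ)..((k + 1 : ℕ) : ℝ), √(M ^ 2 - t ^ 2)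
      = ∫ t in ((0 : ℕ) : ℝ)..((K : ℕ) : ℝ), √(M ^ 2 - t ^ 2) :=
    sum_integral_adjacent_intervals (a := fun k : ℕ => (k : ℝ))
      (fun k _ => hc.intervalIntegrable _ _)
  rw [Nat.cast_zero] at hsum
  have hlast := Lat1_last K b (by linarith) hb0.le
  rw [← hM] at hlast
  -- the trapezoids
  have htrap : ∀ k ∈ Finset.range K, (√(M ^ 2 - (k : ℝ) ^ 2) + √(M ^ 2 - ((k + 1 : ℕ) : ℝ) ^ 2)) / 2
      ≤ ∫ t in ((k : ℕ) : ℝ)..((k + 1 : ℕ) : ℝ), √(M ^ 2 - t ^ 2) := by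
    intro k hk
    have hk' : k + 1 ≤ K := Finset.mem_range.1 hk
    have hk2 : (k : ℝ) + 1 ≤ K := by exact_mod_cast hk'
    have := Lat1_trap M k (Nat.cast_nonneg k) (by linarith)
    push_cast
    exact this
  have hS := Finset.sum_le_sum htrap
  rw [hsum] at hS
  have htel : ∀ n : ℕ, ∑ k ∈ Finset.range n,
      (√(M ^ 2 - (k : ℝ) ^ 2) + √(M ^ 2 - ((k + 1 : ℕ) : ℝ) ^ 2)) / 2
      = ∑ m ∈ Finset.Icc 1 n, √(M ^ 2 - (m : ℝ) ^ 2) + (√(M ^ 2) - √(M ^ 2 - (n : ℝ) ^ 2)) / 2 := by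
    intro n
    induction n with
    | zero => simp
    | succ n ih =>
      rw [Finset.sum_range_succ, ih, Finset.sum_Icc_succ_top (by omega)]
      ring
  rw [htel K, Real.sqrt_sq (by linarith)] at hS
  have hpoly := Lat1_poly K b (√(M ^ 2 - (K : ℝ) ^ 2)) hKr hb0 hb1 (Real.sqrt_nonneg _) (by
    rw [Real.sq_sqrt (by rw [hM]; nlinarith), hM]
    ring)
  have e1 : (K : ℝ) / 4 + M / 16 + (3 * K + 7 * b) / 16 = M / 2 := by
    rw [hM]
    ring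
  have e2 : (2:ℝ) / 3 * b * √(M ^ 2 - (K : ℝ) ^ 2)
      = √(M ^ 2 - (K : ℝ) ^ 2) / 2 - √(M ^ 2 - (K : ℝ) ^ 2) * (1 / 2 - 2 * b / 3) := by ring
  linarith

end Pool.Agent.Work.MP_33c50c_an.PK
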