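import Pool.Agent.Work.MP_33c50c_an.PK.Stmts

set_option autoImplicit false

open MeasureTheory Set
open scoped ENNReal ContDiff

namespace Pool.Agent.Work.MP_33c50c_an.PK

open Pool.Agent.Work.MP_33c50c_an

lemma Lip_dist (x y : ℝ) :
    dist (x : AddCircle (2 * Real.pi)) (y : AddCircle (2 * Real.pi)) ≤ |x - y| := by
  rw [dist_eq_norm, ← AddCircle.coe_sub]
  exact QuotientAddGroup.norm_mk_le_norm

lemma Lip_cont {h : AddCircle (2 * Real.pi) → ℝ} {s : ℝ} (hs : 0 ≤ s)
    (hh : ∀ θ φ, |h θ - h φ| ≤ s * dist θ φ) : Continuous h := by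
  have : LipschitzWith ⟨s, hs⟩ h := LipschitzWith.of_dist_le_mul fun θ φ => by
    rw [Real.dist_eq]
    exact hh θ φ
  exact this.continuous

/-- the sum over the cells is at most the integral -/
lemma Lip_sum {h : AddCircle (2 * Real.pi) → ℝ} (hc : Continuous h) {m : ℕ} (hm : 1 ≤ m) {w μ B : ℝ}
    (hw : w = 2 * Real.pi / m) (hμ : 0 ≤ μ) (M : ℕ → ℝ)
    (hM : ∀ i < m, ∀ x : ℝ, (i : ℝ) * w ≤ x → x ≤ (i + 1) * w →
      M i ≤ (h (x : AddCircle (2 * Real.pi)) + B) * μ) :
    ∑ i ∈ Finset.range m, w * μ * M i / (4 * Real.pi) ≤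
      μ ^ 2 * ((∫ x in (0:ℝ)..(2 * Real.pi), h (x : AddCircle (2 * Real.pi))) + 2 * Real.pi * B) /
        (4 * Real.pi) := by
  have hpi := Real.pi_pos
  have hm0 : (0 : ℝ) < m := by exact_mod_cast hm
  have hw0 : 0 < w := by rw [hw]; positivity
  have hcc : Continuous fun x : ℝ => h (x : AddCircle (2 * Real.pi)) :=
    hc.comp (AddCircle.continuous_mk' _)
  have hci : ∀ a b : ℝ, IntervalIntegrable (fun x : ℝ => (h (x : AddCircle (2 * Real.pi)) + B) * μ)
      volume a b := fun a b => ((hcc.add continuous_const).mul continuous_const).intervalIntegrable _ _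
  have h1 : ∀ i ∈ Finset.range m, w * M i ≤
      ∫ x in ((i : ℝ) * w)..(((i + 1 : ℕ) : ℝ) * w), (h (x : AddCircle (2 * Real.pi)) + B) * μ := by
    intro i hi
    have hle : (i : ℝ) * w ≤ ((i + 1 : ℕ) : ℝ) * w := by
      push_cast
      nlinarith
    have h2 : ∫ x in ((i : ℝ) * w)..(((i + 1 : ℕ) : ℝ) * w), M i = w * M i := by
      rw [intervalIntegral.integral_const]
      push_cast
      rw [smul_eq_mul]
      ring
    rw [← h2]
    apply intervalIntegral.integral_mono_on hle (by simp) (hci _ _)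
    intro x hx
    exact hM i (Finset.mem_range.1 hi) x hx.1 (by have := hx.2; push_cast at this; exact this)
  have h3 := intervalIntegral.sum_integral_adjacent_intervals (μ := volume)
    (f := fun x : ℝ => (h (x : AddCircle (2 * Real.pi)) + B) * μ) (a := fun i : ℕ => (i : ℝ) * w)
    (n := m) (fun i _ => hci _ _)
  have h4 : ∫ x in ((0 : ℕ) : ℝ) * w..(m : ℝ) * w, (h (x : AddCircle (2 * Real.pi)) + B) * μ =
      μ * ((∫ x in (0:ℝ)..(2 * Real.pi), h (x : AddCircle (2 * Real.pi))) + 2 * Real.pi * B) := by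
    have e1 : ((0 : ℕ) : ℝ) * w = 0 := by simp
    have e2 : (m : ℝ) * w = 2 * Real.pi := by rw [hw]; field_simp
    rw [e1, e2, intervalIntegral.integral_mul_const, intervalIntegral.integral_add
      (hcc.intervalIntegrable _ _) (by simp), intervalIntegral.integral_const]
    simp
    ring
  have h5 : ∑ i ∈ Finset.range m, w * M i ≤
      μ * ((∫ x in (0:ℝ)..(2 * Real.pi), h (x : AddCircle (2 * Real.pi))) + 2 * Real.pi * B) := by
    rw [← h4, ← h3]
    exact Finset.sum_le_sum h1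
  have h6 : ∑ i ∈ Finset.range m, w * μ * M i / (4 * Real.pi) =
      μ * (∑ i ∈ Finset.range m, w * M i) / (4 * Real.pi) := by
    rw [Finset.mul_sum, Finset.sum_div]
    exact Finset.sum_congr rfl fun i _ => by ring
  rw [h6]
  apply div_le_div_of_nonneg_right _ (by positivity)
  calc μ * (∑ i ∈ Finset.range m, w * M i) ≤ μ * (μ * ((∫ x in (0:ℝ)..(2 * Real.pi),
      h (x : AddCircle (2 * Real.pi))) + 2 * Real.pi * B)) := mul_le_mul_of_nonneg_left h5 hμ
    _ = _ := by ring

theorem Lip_proof (h1 : SBound) (h2 : SLipP) (h3 : SVol) : SLip := by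
  intro f h s η hs hs' hη hη' hf hh hbd k hk
  have hpi := Real.pi_pos
  have hfc := Lip_cont hs.le hf
  have hhc := Lip_cont hs.le hh
  obtain ⟨hopen, hvol⟩ := h3 f h hfc hhc (fun θ => (hbd θ).1)
  have hvol0 := hvol 0
  rw [zero_add] at hvol0
  obtain ⟨A, hA⟩ : ∃ A : ℝ, A = ∫ x in (0:ℝ)..(2 * Real.pi), h (x : AddCircle (2 * Real.pi)) :=
    ⟨_, rfl⟩
  rw [← hA] at hvol0
  have hA0 : 0 ≤ A := by
    rw [hA]
    exact intervalIntegral.integral_nonneg (by positivity) fun x _ => (hbd _).1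
  -- the number of cells
  obtain ⟨m, hm⟩ : ∃ m : ℕ, m = ⌊Real.pi / (4 * η)⌋₊ := ⟨_, rfl⟩
  have hx1 : 1 ≤ Real.pi / (4 * η) := by
    rw [le_div_iff₀ (by positivity)]
    linarith
  have hm1 : 1 ≤ m := by
    rw [hm]
    exact Nat.one_le_floor_iff _ |>.2 hx1
  have hm0 : (0 : ℝ) < m := by exact_mod_cast hm1
  have hm1' : (1 : ℝ) ≤ m := by exact_mod_cast hm1
  have hmle : (m : ℝ) ≤ Real.pi / (4 * η) := by
    rw [hm]
    exact Nat.floor_le (by positivity)
  have hmge : Real.pi / (4 * η) ≤ 2 * m := by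
    have := Nat.lt_floor_add_one (Real.pi / (4 * η))
    rw [← hm] at this
    linarith
  obtain ⟨w, hw⟩ : ∃ w : ℝ, w = 2 * Real.pi / m := ⟨_, rfl⟩
  have hw0 : 0 < w := by rw [hw]; positivity
  have hw8 : 8 * η ≤ 2 * Real.pi / m := by
    rw [le_div_iff₀ hm0]
    rw [le_div_iff₀ (by positivity)] at hmle
    nlinarith
  have hw16 : w ≤ 16 * η := by
    rw [hw, div_le_iff₀ hm0]
    rw [div_le_iff₀ (by positivity)] at hmge
    nlinarith
  obtain ⟨P, hP1, hPb⟩ := h2 f h s η hs hs' hη hf hh hbd m hm1 hw8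
  -- the main bound
  have key : ∀ lam : ℝ, 0 ≤ lam → eigenvalue (graphDomain f h) k ≤ ENNReal.ofReal lam →
      ∀ B : ℝ, (∀ i : ℕ, ∀ x : ℝ, (i : ℝ) * w ≤ x → x ≤ (i + 1) * w →
      max 0 ((h (((i + 1 / 2) * (2 * Real.pi / m) : ℝ) : AddCircle (2 * Real.pi)) +
          3 / 2 * s * (2 * Real.pi / m)) * Real.sqrt lam - 1 / 4) ≤
        (h (x : AddCircle (2 * Real.pi)) + B) * Real.sqrt lam) →
      4 * Real.pi * k ≤ lam * (A + 2 * Real.pi * B) := by
    intro lam hlam hE B hB
    have b1 := h1 _ hopen P k hk lam hlam hE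
    have b2 := hPb lam hlam
    have b3 := Lip_sum hhc hm1 hw (Real.sqrt_nonneg lam) (fun i : ℕ =>
      max 0 ((h (((i + 1 / 2) * (2 * Real.pi / m) : ℝ) : AddCircle (2 * Real.pi)) +
          3 / 2 * s * (2 * Real.pi / m)) * Real.sqrt lam - 1 / 4)) (B := B)
      (fun i _ x hx1 hx2 => hB i x hx1 hx2)
    rw [Real.sq_sqrt hlam, ← hA, ← hw] at b3
    rw [← hw] at b2
    have b4 := b1.trans (b2.trans b3)
    rw [le_div_iff₀ (by positivity)] at b4
    linarith
  -- the comparison of the values in a cell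
  have hcell : ∀ i : ℕ, ∀ x : ℝ, (i : ℝ) * w ≤ x → x ≤ (i + 1) * w →
      h (((i + 1 / 2) * (2 * Real.pi / m) : ℝ) : AddCircle (2 * Real.pi)) ≤
        h (x : AddCircle (2 * Real.pi)) + s * w / 2 := by
    intro i x hx1 hx2
    rw [← hw]
    have d1 := hh (((i + 1 / 2) * w : ℝ) : AddCircle (2 * Real.pi)) (x : AddCircle (2 * Real.pi))
    have d2 := Lip_dist ((i + 1 / 2) * w) x
    have d3 : |(i + 1 / 2) * w - x| ≤ w / 2 := by
      rw [abs_le]
      constructor <;> linarith
    have d4 := (abs_le.1 d1).2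
    have d5 : s * dist (((i + 1 / 2) * w : ℝ) : AddCircle (2 * Real.pi))
        (x : AddCircle (2 * Real.pi)) ≤ s * (w / 2) :=
      mul_le_mul_of_nonneg_left (d2.trans d3) hs.le
    linarith
  constructor
  · intro hE
    have hEtop : eigenvalue (graphDomain f h) k ≠ ⊤ := ne_top_of_le_ne_top ENNReal.ofReal_ne_top hE
    obtain ⟨lam, hlam⟩ : ∃ lam : ℝ, lam = (eigenvalue (graphDomain f h) k).toReal := ⟨_, rfl⟩
    have hlam0 : 0 ≤ lam := by rw [hlam]; exact ENNReal.toReal_nonneg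
    have hElam : eigenvalue (graphDomain f h) k = ENNReal.ofReal lam := by
      rw [hlam, ENNReal.ofReal_toReal hEtop]
    have hlamle : lam ≤ (1 / (128 * s * η)) ^ 2 := by
      rw [hElam, ENNReal.ofReal_le_ofReal_iff (by positivity)] at hE
      rw [div_pow, one_pow]
      exact hE
    have hsq : Real.sqrt lam ≤ 1 / (128 * s * η) := by
      rw [← Real.sqrt_sq (show 0 ≤ 1 / (128 * s * η) by positivity)]
      exact Real.sqrt_le_sqrt hlamle
    have hB := key lam hlam0 hElam.le 0 (by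
      intro i x hx1 hx2
      have c1 := hcell i x hx1 hx2
      have hn := (hbd (x : AddCircle (2 * Real.pi))).1
      rw [← hw] at c1 ⊢
      have c0 := Real.sqrt_nonneg lam
      have c2 : 2 * s * w * Real.sqrt lam ≤ 1 / 4 := by
        calc 2 * s * w * Real.sqrt lam ≤ 2 * s * (16 * η) * (1 / (128 * s * η)) := by
              gcongr
          _ = 1 / 4 := by field_simp; norm_num
      rw [add_zero]
      apply max_le (by positivity)
      nlinarith [mul_le_mul_of_nonneg_right c1 c0])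
    rw [mul_zero, add_zero] at hB
    rw [hElam, hvol0]
    apply ENNReal.div_le_of_le_mul
    rw [← ENNReal.ofReal_mul hlam0]
    exact ENNReal.ofReal_le_ofReal hB
  · by_cases hEtop : eigenvalue (graphDomain f h) k = ⊤
    · rw [hEtop]
      exact le_top
    obtain ⟨lam, hlam⟩ : ∃ lam : ℝ, lam = (eigenvalue (graphDomain f h) k).toReal := ⟨_, rfl⟩
    have hlam0 : 0 ≤ lam := by rw [hlam]; exact ENNReal.toReal_nonneg
    have hElam : eigenvalue (graphDomain f h) k = ENNReal.ofReal lam := by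
      rw [hlam, ENNReal.ofReal_toReal hEtop]
    have hB := key lam hlam0 hElam.le (2 * s * w) (by
      intro i x hx1 hx2
      have c1 := hcell i x hx1 hx2
      have hn := (hbd (x : AddCircle (2 * Real.pi))).1
      rw [← hw] at c1 ⊢
      have c0 := Real.sqrt_nonneg lam
      apply max_le (by positivity)
      nlinarith [mul_le_mul_of_nonneg_right c1 c0])
    have hC : 4 * Real.pi * k ≤ lam * (A + 64 * Real.pi * s * η) := by
      refine hB.trans (mul_le_mul_of_nonneg_left ?_ hlam0)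
      have : 2 * Real.pi * (2 * s * w) ≤ 2 * Real.pi * (2 * s * (16 * η)) := by gcongr
      linarith
    rw [hElam, hvol0, ← ENNReal.ofReal_add hA0 (by positivity)]
    apply ENNReal.div_le_of_le_mul
    rw [← ENNReal.ofReal_mul hlam0]
    exact ENNReal.ofReal_le_ofReal hC

end Pool.Agent.Work.MP_33c50c_an.PK
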