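import Pool.Agent.Work.MP_33c50c_an.PK.Stmts

/-!
# The packing of a Lipschitz graph domain
-/

set_option autoImplicit false

open MeasureTheory Set
open scoped ENNReal ContDiff

namespace Pool.Agent.Work.MP_33c50c_an.PK

open Pool.Agent.Work.MP_33c50c_an

theorem LipP_dist (a b : ℝ) :
    dist (a : AddCircle (2 * Real.pi)) (b : AddCircle (2 * Real.pi)) ≤ |a - b| := by
  rw [dist_eq_norm, ← AddCircle.coe_sub, ← Real.norm_eq_abs]
  exact QuotientAddGroup.norm_mk_le_norm

theorem LipP_proof : SLipP := by
  intro f h s η hs hs12 hη hf hh hb m hm hw8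
  set w : ℝ := 2 * Real.pi / m with hwdef
  have hm0 : (0 : ℝ) < m := by exact_mod_cast hm
  have hpi := Real.pi_pos
  have hw : 0 < w := by positivity
  have hmw : (m : ℝ) * w = 2 * Real.pi := by
    rw [hwdef]
    field_simp
  have hsw : 0 < s * w := mul_pos hs hw
  have hsw12 : s * w ≤ w / 12 := by nlinarith
  set X : ℕ → ℝ := fun i => ((i : ℝ) + 1 / 2) * w with hX
  -- the variation inside a piece
  have hvar : ∀ (i : ℕ) (x : ℝ), x ∈ Ioo 0 w → ∀ g : AddCircle (2 * Real.pi) → ℝ,
      (∀ θ φ, |g θ - g φ| ≤ s * dist θ φ) →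
      |g ((((i : ℝ) * w + x : ℝ)) : AddCircle (2 * Real.pi)) -
        g ((X i : ℝ) : AddCircle (2 * Real.pi))| ≤ s * w / 2 := by
    intro i x hx g hg
    refine (hg _ _).trans ?_
    have h1 := LipP_dist ((i : ℝ) * w + x) (X i)
    have h2 : |(i : ℝ) * w + x - X i| ≤ w / 2 := by
      have : (i : ℝ) * w + x - X i = x - w / 2 := by
        rw [hX]
        ring
      rw [this, abs_le]
      constructor <;> linarith [hx.1, hx.2]
    calc s * dist _ _ ≤ s * (w / 2) := mul_le_mul_of_nonneg_left (h1.trans h2) hs.le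
      _ = s * w / 2 := by ring
  let R : ℕ → Fin m := fun i => if hi : i < m then ⟨i, hi⟩ else ⟨0, hm⟩
  have hR : ∀ i, i < m → ((R i : ℕ) = i) := by
    intro i hi
    simp only [R, dif_pos hi]
  let P : Packing (graphDomain f h) :=
    { p := 1
      nR := m
      L := fun _ => w
      H := fun ρ => h ((X ρ : ℝ) : AddCircle (2 * Real.pi)) + 3 / 2 * s * w
      n := fun _ => m
      t := fun _ i => (i : ℝ) * w
      r := fun _ i => R i
      sx := fun _ _ => false
      sy := fun _ _ => false
      c := fun _ i => -(f ((X i : ℝ) : AddCircle (2 * Real.pi)) - s * w / 2)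
      p_pos := one_pos
      L_pos := fun _ => hw
      H_nonneg := fun ρ => by
        have := (hb ((X ρ : ℝ) : AddCircle (2 * Real.pi))).1
        linarith
      thin := fun ρ => by
        have := (hb ((X ρ : ℝ) : AddCircle (2 * Real.pi))).2
        have h2 : 4 * (h ((X ρ : ℝ) : AddCircle (2 * Real.pi)) + 3 / 2 * s * w) ≤
            4 * η + 6 * (s * w) := by linarith
        have h3 : 4 * η + 6 * (s * w) ≤ w := by linarith
        exact h2.trans h3
      around := fun _ => by
        simp only [Nat.cast_zero, zero_mul, zero_add]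
        exact hmw
      width := fun _ i _ => by
        push_cast
        ring
      inside := fun _ i hi x hx y hmem => by
        have hRi := hR i hi
        have h1 : f ((((i : ℝ) * w + x : ℝ)) : AddCircle (2 * Real.pi)) <
            y - -(f ((X i : ℝ) : AddCircle (2 * Real.pi)) - s * w / 2) ∧
            y - -(f ((X i : ℝ) : AddCircle (2 * Real.pi)) - s * w / 2) <
            f ((((i : ℝ) * w + x : ℝ)) : AddCircle (2 * Real.pi)) +
            h ((((i : ℝ) * w + x : ℝ)) : AddCircle (2 * Real.pi)) := hmem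
        have h2 := abs_le.1 (hvar i x hx f hf)
        have h3 := abs_le.1 (hvar i x hx h hh)
        rw [hRi]
        constructor
        · linarith [h1.1, h2.1, h2.2]
        · linarith [h1.2, h2.1, h2.2, h3.1, h3.2]
      disj := fun q i q' i' hi hi' hne hr x hx y => by
        exfalso
        apply hne
        have h1 : i = i' := by
          rw [← hR i hi, ← hR i' hi', hr]
        rw [h1, Subsingleton.elim q q'] }
  refine ⟨P, rfl, fun lam _ => ?_⟩
  have hbd : P.bound lam = (∑ ρ : Fin m, w * Real.sqrt lam *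
      max 0 ((h ((X ρ : ℝ) : AddCircle (2 * Real.pi)) + 3 / 2 * s * w) * Real.sqrt lam - 1 / 4)) /
        (4 * Real.pi * ((1 : ℕ) : ℝ)) := rfl
  rw [hbd, Nat.cast_one, mul_one, Finset.sum_div, Finset.sum_range]

end Pool.Agent.Work.MP_33c50c_an.PK
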