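import Pool.Agent.Work.MP_33c50c_an.PK.Stmts

/-!
# The one dimensional inequality in the direction `x`
-/

set_option autoImplicit false

open MeasureTheory Set
open scoped ENNReal ContDiff

namespace Pool.Agent.Work.MP_33c50c_an.PK

open Pool.Agent.Work.MP_33c50c_an

/-- integration by parts -/
theorem OneX_parts {L : ℝ} (hL : 0 < L) {a a' : ℝ → ℝ} (ha' : Continuous a')
    (ha : ∀ x, HasDerivAt a (a' x) x) (m : ℕ) :
    ∫ y in (0:ℝ)..L, a' y * Real.sin ((m + 1) * Real.pi * y / L) =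
      -(((m : ℝ) + 1) * Real.pi / L) *
        ∫ x in (0:ℝ)..L, a x * Real.cos (((m + 1 : ℕ) : ℝ) * Real.pi * x / L) := by
  set k : ℝ := ((m : ℝ) + 1) * Real.pi / L with hk
  have hac : Continuous a := continuous_iff_continuousAt.2 fun x => (ha x).continuousAt
  have e1 : ∀ y : ℝ, ((m : ℝ) + 1) * Real.pi * y / L = k * y := by
    intro y
    rw [hk]
    ring
  have e2 : ∀ y : ℝ, ((m + 1 : ℕ) : ℝ) * Real.pi * y / L = k * y := by
    intro y
    rw [hk]
    push_cast
    ring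
  simp_rw [e1, e2]
  have hs : ∀ x : ℝ, HasDerivAt (fun y : ℝ => Real.sin (k * y)) (Real.cos (k * x) * k) x := by
    intro x
    have h1 : HasDerivAt (fun y : ℝ => k * y) k x := by
      simpa using (hasDerivAt_id x).const_mul k
    exact h1.sin
  have h1 := intervalIntegral.integral_mul_deriv_eq_deriv_mul (a := 0) (b := L)
    (u := fun y : ℝ => Real.sin (k * y)) (v := a) (u' := fun y : ℝ => Real.cos (k * y) * k)
    (v' := a') (fun x _ => hs x) (fun x _ => ha x)
    (Continuous.intervalIntegrable (by fun_prop) _ _)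
    (Continuous.intervalIntegrable ha' _ _)
  have h2 : Real.sin (k * L) = 0 := by
    have h3 : k * L = ((m + 1 : ℕ) : ℝ) * Real.pi := by
      rw [hk]
      push_cast
      field_simp
    rw [h3]
    exact Real.sin_nat_mul_pi _
  simp only [mul_zero, Real.sin_zero, zero_mul, h2, sub_self, zero_sub] at h1
  have h3 : ∫ y in (0:ℝ)..L, a' y * Real.sin (k * y) = ∫ y in (0:ℝ)..L, Real.sin (k * y) * a' y :=
    intervalIntegral.integral_congr fun y _ => mul_comm _ _
  have h4 : ∫ y in (0:ℝ)..L, Real.cos (k * y) * k * a y =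
      k * ∫ y in (0:ℝ)..L, a y * Real.cos (k * y) := by
    rw [← intervalIntegral.integral_const_mul]
    exact intervalIntegral.integral_congr fun y _ => by
      show Real.cos (k * y) * k * a y = k * (a y * Real.cos (k * y))
      ring
  rw [h3, h1, h4]
  ring

theorem OneX_proof (h1 : SCos) (h2 : SBsin) : SOneX := by
  intro L hL κ hκ a a' ha' ha hz
  have hac : Continuous a := continuous_iff_continuousAt.2 fun x => (ha x).continuousAt
  have hnn : 0 ≤ ∫ x in (0:ℝ)..L, a' x ^ 2 :=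
    intervalIntegral.integral_nonneg hL.le fun x _ => sq_nonneg _
  rcases hκ.eq_or_lt with h0 | h0
  · rw [← h0]
    simpa using hnn
  have hsum := (h1 L hL a hac).tendsto_sum_nat
  have hlim := hsum.const_mul (κ ^ 2)
  refine le_of_tendsto hlim ?_
  filter_upwards [Filter.eventually_ge_atTop 1] with N hN
  obtain ⟨K, rfl⟩ : ∃ K, N = K + 1 := ⟨N - 1, by omega⟩
  rw [Finset.sum_range_succ']
  have hc0 : ∫ x in (0:ℝ)..L, a x * Real.cos (((0 : ℕ) : ℝ) * Real.pi * x / L) = 0 := by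
    refine hz 0 ?_
    simpa using h0
  rw [hc0]
  have hterm : ∀ m ∈ Finset.range K, κ ^ 2 * ((if m + 1 = 0 then (1 : ℝ) else 2) / L *
      (∫ x in (0:ℝ)..L, a x * Real.cos (((m + 1 : ℕ) : ℝ) * Real.pi * x / L)) ^ 2) ≤
      2 / L * (∫ y in (0:ℝ)..L, a' y * Real.sin ((m + 1) * Real.pi * y / L)) ^ 2 := by
    intro m _
    rw [if_neg (Nat.succ_ne_zero m), OneX_parts hL ha' ha m]
    set c : ℝ := ∫ x in (0:ℝ)..L, a x * Real.cos (((m + 1 : ℕ) : ℝ) * Real.pi * x / L) with hc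
    by_cases hlt : ((m + 1 : ℕ) : ℝ) * Real.pi / L < κ
    · have hc' : c = 0 := hz (m + 1) hlt
      rw [hc']
      simp
    · have hge : κ ≤ ((m : ℝ) + 1) * Real.pi / L := by
        have := not_lt.1 hlt
        push_cast at this
        exact this
      have hsq : κ ^ 2 ≤ (((m : ℝ) + 1) * Real.pi / L) ^ 2 := pow_le_pow_left₀ h0.le hge 2
      calc κ ^ 2 * (2 / L * c ^ 2) ≤ (((m : ℝ) + 1) * Real.pi / L) ^ 2 * (2 / L * c ^ 2) :=
            mul_le_mul_of_nonneg_right hsq (by positivity)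
        _ = 2 / L * (-(((m : ℝ) + 1) * Real.pi / L) * c) ^ 2 := by ring
  calc κ ^ 2 * (∑ m ∈ Finset.range K, (if m + 1 = 0 then (1 : ℝ) else 2) / L *
        (∫ x in (0:ℝ)..L, a x * Real.cos (((m + 1 : ℕ) : ℝ) * Real.pi * x / L)) ^ 2 +
        (if 0 = 0 then (1 : ℝ) else 2) / L * 0 ^ 2)
      = ∑ m ∈ Finset.range K, κ ^ 2 * ((if m + 1 = 0 then (1 : ℝ) else 2) / L *
        (∫ x in (0:ℝ)..L, a x * Real.cos (((m + 1 : ℕ) : ℝ) * Real.pi * x / L)) ^ 2) := by
        rw [← Finset.mul_sum]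
        ring
    _ ≤ ∑ m ∈ Finset.range K,
        2 / L * (∫ y in (0:ℝ)..L, a' y * Real.sin ((m + 1) * Real.pi * y / L)) ^ 2 :=
        Finset.sum_le_sum hterm
    _ ≤ ∫ x in (0:ℝ)..L, a' x ^ 2 := h2 L hL a' ha' K

end Pool.Agent.Work.MP_33c50c_an.PK
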