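import Pool.Agent.Work.MP_33c50c_an.PK.Stmts

set_option autoImplicit false

open MeasureTheory Set
open scoped ENNReal ContDiff

namespace Pool.Agent.Work.MP_33c50c_an.PK

open Pool.Agent.Work.MP_33c50c_an

/-- integration by parts. -/
theorem OneY_parts (H : ℝ) (_ : 0 < H) (g g' : ℝ → ℝ) (hg' : Continuous g')
    (hd : ∀ y, HasDerivAt g (g' y) y) (h0 : g 0 = 0) (h1 : g H = 0) (m : ℕ) :
    ((m + 1) * Real.pi / H) * (∫ y in (0:ℝ)..H, g y * Real.sin ((m + 1) * Real.pi * y / H)) =
      ∫ y in (0:ℝ)..H, g' y * Real.cos ((m + 1) * Real.pi * y / H) := by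
  have hv : ∀ y : ℝ, HasDerivAt (fun y => Real.cos ((m + 1) * Real.pi * y / H))
      (-(((m + 1) * Real.pi / H) * Real.sin ((m + 1) * Real.pi * y / H))) y := by
    intro y
    have h2 : HasDerivAt (fun y : ℝ => (m + 1) * Real.pi * y / H) ((m + 1) * Real.pi / H) y := by
      have h3 := ((hasDerivAt_id y).const_mul ((m + 1) * Real.pi)).div_const H
      simpa using h3
    have h4 := h2.cos
    convert h4 using 1
    ring
  have hc : Continuous (fun y : ℝ => -(((m + 1) * Real.pi / H) *
      Real.sin ((m + 1) * Real.pi * y / H))) := by fun_prop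
  have hp := intervalIntegral.integral_mul_deriv_eq_deriv_mul (a := 0) (b := H) (u := g)
    (v := fun y => Real.cos ((m + 1) * Real.pi * y / H)) (u' := g')
    (v' := fun y => -(((m + 1) * Real.pi / H) * Real.sin ((m + 1) * Real.pi * y / H)))
    (fun x _ => hd x) (fun x _ => hv x) (hg'.intervalIntegrable _ _) (hc.intervalIntegrable _ _)
  rw [h0, h1, zero_mul, zero_mul, sub_zero, zero_sub] at hp
  have h5 : (∫ y in (0:ℝ)..H, g y * -(((m + 1) * Real.pi / H) *
      Real.sin ((m + 1) * Real.pi * y / H))) =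
      -(((m + 1) * Real.pi / H) * (∫ y in (0:ℝ)..H, g y *
        Real.sin ((m + 1) * Real.pi * y / H))) := by
    rw [← intervalIntegral.integral_const_mul, ← intervalIntegral.integral_neg]
    congr 1
    funext y
    ring
  rw [h5] at hp
  exact neg_injective hp

theorem OneY_proof (h : SBcos) : SOneY := by
  intro H hH g g' hg' hd h0 h1 K
  have hb := h H hH g' hg' K
  refine le_trans (le_of_eq (Finset.sum_congr rfl fun m _ => ?_)) hb
  rw [← OneY_parts H hH g g' hg' hd h0 h1 m, mul_pow]
  ring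

end Pool.Agent.Work.MP_33c50c_an.PK
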