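import Pool.Agent.Work.MP_33c50c_an.PK.Stmts

/-! MP_33c50c_an, block PK: item Perfect. -/

set_option autoImplicit false

open MeasureTheory Set
open scoped ENNReal ContDiff

namespace Pool.Agent.Work.MP_33c50c_an.PK

open Pool.Agent.Work.MP_33c50c_an

lemma Perfect_bound_le {Ω : Set Cyl} (P : Packing Ω) {lam : ℝ} (hlam : 0 ≤ lam) :
    P.bound lam ≤ ((∑ ρ, P.L ρ * P.H ρ) * lam) / (4 * Real.pi * P.p) := by
  unfold Packing.bound
  have hp : (0 : ℝ) < P.p := by exact_mod_cast P.p_pos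
  have hden : 0 < 4 * Real.pi * P.p := by positivity
  apply div_le_div_of_nonneg_right _ hden.le
  rw [Finset.sum_mul]
  apply Finset.sum_le_sum
  intro ρ _
  have hL := P.L_pos ρ
  have hH := P.H_nonneg ρ
  have hs : 0 ≤ Real.sqrt lam := Real.sqrt_nonneg _
  have hss : Real.sqrt lam * Real.sqrt lam = lam := Real.mul_self_sqrt hlam
  have h1 : max 0 (P.H ρ * Real.sqrt lam - 1 / 4) ≤ P.H ρ * Real.sqrt lam := by
    apply max_le (mul_nonneg hH hs)
    linarith
  calc P.L ρ * Real.sqrt lam * max 0 (P.H ρ * Real.sqrt lam - 1 / 4)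
      ≤ P.L ρ * Real.sqrt lam * (P.H ρ * Real.sqrt lam) :=
        mul_le_mul_of_nonneg_left h1 (mul_nonneg hL.le hs)
    _ = P.L ρ * P.H ρ * (Real.sqrt lam * Real.sqrt lam) := by ring
    _ = P.L ρ * P.H ρ * lam := by rw [hss]

theorem Perfect_proof (h : SBound) : SPerfect := by
  intro Ω hΩ P hV k hk
  by_contra hcon
  push Not at hcon
  have hp : (0 : ℝ) < P.p := by exact_mod_cast P.p_pos
  have hkpos : (0 : ℝ) < k := by exact_mod_cast hk
  set e := eigenvalue Ω k with he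
  have hetop : e ≠ ⊤ := ne_top_of_lt hcon
  set lam := e.toReal with hlamdef
  have hlam : 0 ≤ lam := ENNReal.toReal_nonneg
  have hlam' : ENNReal.ofReal lam = e := ENNReal.ofReal_toReal hetop
  have hb := h Ω hΩ P k hk lam hlam hlam'.ge
  have hb2 := hb.trans (Perfect_bound_le P hlam)
  set S := ∑ ρ, P.L ρ * P.H ρ with hS
  have hden : 0 < 4 * Real.pi * P.p := by positivity
  rw [le_div_iff₀ hden] at hb2
  have hS0 : 0 ≤ S := Finset.sum_nonneg fun ρ _ => mul_nonneg (P.L_pos ρ).le (P.H_nonneg ρ)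
  have hSl : 0 < S * lam := lt_of_lt_of_le (by positivity) hb2
  have hSpos : 0 < S := by
    rcases hS0.lt_or_eq with h1 | h1
    · exact h1
    · rw [← h1, zero_mul] at hSl; exact absurd hSl (lt_irrefl _)
  have hp' : (P.p : ℝ≥0∞) ≠ 0 := by exact_mod_cast P.p_pos.ne'
  have hptop : (P.p : ℝ≥0∞) ≠ ⊤ := ENNReal.natCast_ne_top _
  have hV0 : volume Ω ≠ 0 := by
    intro h0
    rw [h0, mul_zero] at hV
    exact absurd (ENNReal.ofReal_eq_zero.mp hV) (not_le.mpr hSpos)
  have hVtop : volume Ω ≠ ⊤ := by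
    intro h0
    rw [h0, ENNReal.mul_top hp'] at hV
    exact ENNReal.ofReal_ne_top hV
  have h1 : e * volume Ω < ENNReal.ofReal (4 * Real.pi * k) :=
    (ENNReal.lt_div_iff_mul_lt (Or.inl hV0) (Or.inl hVtop)).1 hcon
  have h2 : P.p * (e * volume Ω) < P.p * ENNReal.ofReal (4 * Real.pi * k) :=
    (ENNReal.mul_lt_mul_iff_right hp' hptop).2 h1
  have h3 : P.p * (e * volume Ω) = ENNReal.ofReal (lam * S) := by
    rw [ENNReal.ofReal_mul hlam, hlam', hV]; ring
  have h4 : P.p * ENNReal.ofReal (4 * Real.pi * k) = ENNReal.ofReal (P.p * (4 * Real.pi * k)) := by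
    rw [ENNReal.ofReal_mul hp.le, ENNReal.ofReal_natCast]
  rw [h3, h4] at h2
  have h5 := (ENNReal.ofReal_lt_ofReal_iff (by positivity)).1 h2
  have h6 : (k : ℝ) * (4 * Real.pi * P.p) = P.p * (4 * Real.pi * k) := by ring
  rw [h6] at hb2
  linarith only [hb2, h5, mul_comm lam S]

end Pool.Agent.Work.MP_33c50c_an.PK
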