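import Pool.Agent.Work.MP_33c50c_an.PK.Stmts

set_option autoImplicit false

open MeasureTheory Set
open scoped ENNReal ContDiff

namespace Pool.Agent.Work.MP_33c50c_an.PK

open Pool.Agent.Work.MP_33c50c_an

lemma Pieces_bound (F : Cyl → ℝ) (hs : HasCompactSupport F) :
    ∃ R : ℝ, ∀ p : Cyl, p.2 ∉ Icc (-R) R → F p = 0 := by
  obtain ⟨R, hR⟩ := (hs.image continuous_snd).isBounded.subset_closedBall (0 : ℝ)
  refine ⟨R, fun p hp => ?_⟩
  by_contra h
  apply hp
  have h1 : p.2 ∈ Metric.closedBall (0:ℝ) R := hR ⟨p, subset_tsupport _ h, rfl⟩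
  rw [Real.closedBall_eq_Icc] at h1
  simpa using h1

lemma Pieces_cont (F : Cyl → ℝ) (hF : Continuous F) (hs : HasCompactSupport F) :
    Continuous fun θ : AddCircle (2 * Real.pi) => ∫ y, F (θ, y) := by
  obtain ⟨R, hR⟩ := Pieces_bound F hs
  have h1 : (fun θ : AddCircle (2 * Real.pi) => ∫ y, F (θ, y)) =
      fun θ : AddCircle (2 * Real.pi) => ∫ y in Icc (-R) R, F (θ, y) := by
    ext θ
    symm
    apply setIntegral_eq_integral_of_forall_compl_eq_zero
    intro y hy
    exact hR (θ, y) hy
  rw [h1]
  exact continuous_parametric_integral_of_continuous (by simpa [Function.uncurry_def] using hF)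
    isCompact_Icc

lemma Pieces_inner (F : Cyl → ℝ) (a w : ℝ) (sx sy : Bool) (c x : ℝ) :
    ∫ y, F (place a w sx sy c x y) =
      ∫ y, F ((((if sx then a + w - x else a + x) : ℝ) : AddCircle (2 * Real.pi)), y) := by
  unfold place
  cases sy
  · exact integral_sub_right_eq_self (fun y => F (_, y)) c
  · exact integral_sub_left_eq_self (fun y => F (_, y)) volume c

theorem Pieces_proof : SPieces := by
  intro F hF hs n t w sx sy c hn hw
  have hi : Integrable F (volume : Measure Cyl) := hF.integrable_of_hasCompactSupport hs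
  set G : AddCircle (2 * Real.pi) → ℝ := fun θ => ∫ y, F (θ, y) with hG
  have hGc : Continuous G := Pieces_cont F hF hs
  have h1 : ∫ p, F p = ∫ θ, G θ := by
    rw [Measure.volume_eq_prod] at hi ⊢
    rw [integral_prod F hi]
  have h2 : ∫ θ, G θ = ∫ x in (t 0)..(t 0 + 2 * Real.pi), G (x : AddCircle (2 * Real.pi)) :=
    (AddCircle.intervalIntegral_preimage (2 * Real.pi) (t 0) G).symm
  have hGc' : Continuous fun x : ℝ => G (x : AddCircle (2 * Real.pi)) :=
    hGc.comp (AddCircle.continuous_mk' _)
  rw [h1, h2, ← hn, ← intervalIntegral.sum_integral_adjacent_intervals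
    (fun k _ => hGc'.intervalIntegrable _ _)]
  refine Finset.sum_congr rfl fun i hi => ?_
  have hwi := hw i (Finset.mem_range.mp hi)
  simp_rw [Pieces_inner]
  rw [hwi.2]
  cases sx i
  · have := intervalIntegral.integral_comp_add_left (a := 0) (b := w i)
      (fun x : ℝ => G (x : AddCircle (2 * Real.pi))) (t i)
    rw [add_zero] at this
    rw [← this]
    rfl
  · have := intervalIntegral.integral_comp_sub_left (a := 0) (b := w i)
      (fun x : ℝ => G (x : AddCircle (2 * Real.pi))) (t i + w i)
    rw [sub_zero, add_sub_cancel_right] at this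
    rw [← this]
    rfl

end Pool.Agent.Work.MP_33c50c_an.PK
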