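import Pool.Agent.Work.MP_33c50c_an.PK.Stmts

set_option autoImplicit false

open MeasureTheory Set
open scoped ENNReal ContDiff

namespace Pool.Agent.Work.MP_33c50c_an.PK

open Pool.Agent.Work.MP_33c50c_an

lemma PlaceD_x (u : Cyl → ℝ) (hu : ContDiff ℝ 1 (lft u)) (a w c : ℝ) (sx sy : Bool) (x y : ℝ) :
    HasDerivAt (fun τ => u (place a w sx sy c τ y))
      ((if sx then -1 else 1) * dX u (place a w sx sy c x y)) x := by
  have key : ∀ Y : ℝ, HasDerivAt (fun τ => u (pt (if sx then a + w - τ else a + τ) Y))
      ((if sx then -1 else 1) * dX u (pt (if sx then a + w - x else a + x) Y)) x := by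
    intro Y
    cases sx with
    | false =>
      simp only [Bool.false_eq_true, if_false, one_mul]
      have h1 : HasDerivAt (fun τ : ℝ => a + τ) 1 x := (hasDerivAt_id x).const_add a
      have h2 := (hasDeriv_x u hu (a + x) Y).comp x h1
      rw [mul_one] at h2
      exact h2
    | true =>
      simp only [if_true]
      have h1 : HasDerivAt (fun τ : ℝ => a + w - τ) (-1) x := (hasDerivAt_id x).const_sub (a + w)
      have h2 := (hasDeriv_x u hu (a + w - x) Y).comp x h1
      rw [mul_comm] at h2
      exact h2
  exact key (if sy then c - y else y - c)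

lemma PlaceD_y (u : Cyl → ℝ) (hu : ContDiff ℝ 1 (lft u)) (a w c : ℝ) (sx sy : Bool) (x y : ℝ) :
    HasDerivAt (fun τ => u (place a w sx sy c x τ))
      ((if sy then -1 else 1) * dY u (place a w sx sy c x y)) y := by
  have key : ∀ X : ℝ, HasDerivAt (fun τ => u (pt X (if sy then c - τ else τ - c)))
      ((if sy then -1 else 1) * dY u (pt X (if sy then c - y else y - c))) y := by
    intro X
    cases sy with
    | false =>
      simp only [Bool.false_eq_true, if_false, one_mul]
      have h1 : HasDerivAt (fun τ : ℝ => τ - c) 1 y := (hasDerivAt_id y).sub_const c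
      have h2 := (hasDeriv_y u hu X (y - c)).comp y h1
      rw [mul_one] at h2
      exact h2
    | true =>
      simp only [if_true]
      have h1 : HasDerivAt (fun τ : ℝ => c - τ) (-1) y := (hasDerivAt_id y).const_sub c
      have h2 := (hasDeriv_y u hu X (c - y)).comp y h1
      rw [mul_comm] at h2
      exact h2
  exact key (if sx then a + w - x else a + x)

theorem PlaceD_proof : SPlaceD := by
  intro u hu a w sx sy c
  refine ⟨?_, fun x y => ⟨PlaceD_x u hu a w c sx sy x y, PlaceD_y u hu a w c sx sy x y⟩⟩
  have h1 : Continuous fun q : ℝ × ℝ => (if sx then a + w - q.1 else a + q.1, if sy then c - q.2 else q.2 - c) := by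
    cases sx <;> cases sy <;> simp only [Bool.false_eq_true, if_false, if_true] <;> fun_prop
  exact pt_continuous.comp h1

end Pool.Agent.Work.MP_33c50c_an.PK
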