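import Pool.Agent.Work.MP_33c50c_an.PK.Stmts

set_option autoImplicit false

open MeasureTheory Set

namespace Pool.Agent.Work.MP_33c50c_an.PK

open Pool.Agent.Work.MP_33c50c_an

/-- integration of a series of nonnegative continuous functions -/
theorem Rect_hasSum (g : ℕ → ℝ → ℝ) (S : ℝ → ℝ) (a b : ℝ) (hab : a ≤ b)
    (hg : ∀ m, Continuous (g m)) (hg0 : ∀ m x, 0 ≤ g m x) (hS : Continuous S)
    (h : ∀ x ∈ Icc a b, HasSum (fun m => g m x) (S x)) :
    HasSum (fun m => ∫ x in a..b, g m x) (∫ x in a..b, S x) := by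
  have hi : ∀ m, Integrable (g m) (volume.restrict (Ioc a b)) := fun m =>
    (intervalIntegrable_iff_integrableOn_Ioc_of_le hab).mp ((hg m).intervalIntegrable a b)
  have hle : ∀ s : Finset ℕ, ∑ m ∈ s, ∫ x in a..b, g m x ≤ ∫ x in a..b, S x := by
    intro s
    rw [← intervalIntegral.integral_finsetSum (fun m _ => (hg m).intervalIntegrable a b)]
    apply intervalIntegral.integral_mono_on hab _ (hS.intervalIntegrable a b)
    · intro x hx
      exact sum_le_hasSum s (fun m _ => hg0 m x) (h x hx)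
    · exact Continuous.intervalIntegrable (continuous_finsetSum _ (fun m _ => hg m)) _ _
  have hsum : Summable fun m => ∫ x in a..b, g m x :=
    summable_of_sum_le (fun m => intervalIntegral.integral_nonneg hab (fun x _ => hg0 m x)) hle
  have hsum' : Summable fun m => ∫ x, ‖g m x‖ ∂(volume.restrict (Ioc a b)) := by
    convert hsum using 1
    ext m
    rw [intervalIntegral.integral_of_le hab]
    congr 1; ext x; rw [Real.norm_eq_abs, abs_of_nonneg (hg0 m x)]
  have := hasSum_integral_of_summable_integral_norm hi hsum'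
  have e1 : (fun m => ∫ x in a..b, g m x) = fun m => ∫ x, g m x ∂(volume.restrict (Ioc a b)) := by
    ext m; rw [intervalIntegral.integral_of_le hab]
  have e2 : ∫ x in Ioc a b, S x = ∫ x in Ioc a b, ∑' m, g m x :=
    setIntegral_congr_fun measurableSet_Ioc fun x hx =>
      (h x (Ioc_subset_Icc_self hx)).tsum_eq.symm
  rw [e1, intervalIntegral.integral_of_le hab, e2]
  exact this

/-- differentiation under the integral sign -/
theorem Rect_deriv (W Wx : ℝ → ℝ → ℝ) (s : ℝ → ℝ) (H : ℝ)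
    (hW : Continuous fun q : ℝ × ℝ => W q.1 q.2) (hWx : Continuous fun q : ℝ × ℝ => Wx q.1 q.2)
    (hs : Continuous s) (hd : ∀ x y, HasDerivAt (fun τ => W τ y) (Wx x y) x) (x : ℝ) :
    HasDerivAt (fun x => ∫ y in (0:ℝ)..H, W x y * s y) (∫ y in (0:ℝ)..H, Wx x y * s y) x := by
  have hc : ∀ z, Continuous fun y => W z y * s y := fun z =>
    (hW.comp (by fun_prop : Continuous fun y : ℝ => (z, y))).mul hs
  have hc' : ∀ z, Continuous fun y => Wx z y * s y := fun z =>
    (hWx.comp (by fun_prop : Continuous fun y : ℝ => (z, y))).mul hs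
  have hjoint : Continuous fun q : ℝ × ℝ => Wx q.1 q.2 * s q.2 :=
    hWx.mul (hs.comp continuous_snd)
  obtain ⟨C, hC⟩ := ((isCompact_Icc (a := x - 1) (b := x + 1)).prod
    (isCompact_uIcc (a := (0:ℝ)) (b := H))).exists_bound_of_continuousOn hjoint.continuousOn
  refine (intervalIntegral.hasDerivAt_integral_of_dominated_loc_of_deriv_le
    (F := fun x y => W x y * s y) (F' := fun x y => Wx x y * s y) (bound := fun _ => C)
    (s := Icc (x - 1) (x + 1)) (Icc_mem_nhds (by linarith) (by linarith)) ?_ ?_ ?_ ?_ ?_ ?_).2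
  · exact Filter.Eventually.of_forall fun z => (hc z).aestronglyMeasurable
  · exact (hc x).intervalIntegrable _ _
  · exact (hc' x).aestronglyMeasurable
  · refine Filter.Eventually.of_forall fun y hy z hz => ?_
    exact hC (z, y) ⟨hz, uIoc_subset_uIcc hy⟩
  · exact intervalIntegrable_const
  · refine Filter.Eventually.of_forall fun y _ z _ => ?_
    exact (hd z y).mul_const (s y)

theorem Rect_cont (W : ℝ → ℝ → ℝ) (s : ℝ → ℝ) (H : ℝ)
    (hW : Continuous fun q : ℝ × ℝ => W q.1 q.2) (hs : Continuous s) :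
    Continuous fun x => ∫ y in (0:ℝ)..H, W x y * s y := by
  apply intervalIntegral.continuous_parametric_intervalIntegral_of_continuous'
  exact hW.mul (hs.comp continuous_snd)

theorem Rect_cont_sq (W : ℝ → ℝ → ℝ) (H : ℝ)
    (hW : Continuous fun q : ℝ × ℝ => W q.1 q.2) :
    Continuous fun x => ∫ y in (0:ℝ)..H, W x y ^ 2 := by
  apply intervalIntegral.continuous_parametric_intervalIntegral_of_continuous'
  exact hW.pow 2

/-- one mode -/
theorem Rect_mode (h3 : SOneX) {L μ c : ℝ} (hL : 0 < L) (hc : 0 ≤ c) (hμ : 0 < μ)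
    (a a' : ℝ → ℝ) (ha' : Continuous a') (hd : ∀ x, HasDerivAt a (a' x) x)
    (h : ∀ n : ℕ, (n * Real.pi / L) ^ 2 + c ^ 2 < μ ^ 2 →
      ∫ x in (0:ℝ)..L, a x * Real.cos (n * Real.pi * x / L) = 0) :
    μ ^ 2 * ∫ x in (0:ℝ)..L, a x ^ 2 ≤
      (∫ x in (0:ℝ)..L, a' x ^ 2) + c ^ 2 * ∫ x in (0:ℝ)..L, a x ^ 2 := by
  have h1 : 0 ≤ ∫ x in (0:ℝ)..L, a x ^ 2 :=
    intervalIntegral.integral_nonneg hL.le fun x _ => sq_nonneg _
  have h2 : 0 ≤ ∫ x in (0:ℝ)..L, a' x ^ 2 :=
    intervalIntegral.integral_nonneg hL.le fun x _ => sq_nonneg _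
  by_cases hμc : μ ≤ c
  · have : μ ^ 2 ≤ c ^ 2 := pow_le_pow_left₀ hμ.le hμc 2
    nlinarith [mul_le_mul_of_nonneg_right this h1]
  · push Not at hμc
    have h4 : 0 ≤ μ ^ 2 - c ^ 2 := by
      have : c ^ 2 ≤ μ ^ 2 := pow_le_pow_left₀ hc hμc.le 2
      linarith
    have h5 : Real.sqrt (μ ^ 2 - c ^ 2) ^ 2 = μ ^ 2 - c ^ 2 := Real.sq_sqrt h4
    have h6 := h3 L hL (Real.sqrt (μ ^ 2 - c ^ 2)) (Real.sqrt_nonneg _) a a' ha' hd (by
      intro n hn
      apply h n
      have h7 : 0 ≤ n * Real.pi / L := by positivity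
      have h8 : (n * Real.pi / L) ^ 2 < Real.sqrt (μ ^ 2 - c ^ 2) ^ 2 :=
        pow_lt_pow_left₀ hn h7 (by norm_num)
      rw [h5] at h8
      linarith)
    rw [h5] at h6
    linarith

theorem Rect_proof (h1 : SSin) (h2 : SBsin) (h3 : SOneX) (h4 : SOneY) : SRect := by
  intro L H μ hL hH hμ W Wx Wy hW hWx hWy hdx hdy hbd hcoef
  have hpi := Real.pi_pos
  set sn : ℕ → ℝ → ℝ := fun m y => Real.sin ((m + 1) * Real.pi * y / H) with hsn
  have hsnc : ∀ m, Continuous (sn m) := by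
    intro m
    simp only [hsn]
    fun_prop
  set A : ℕ → ℝ → ℝ := fun m x => ∫ y in (0:ℝ)..H, W x y * sn m y with hA
  set A' : ℕ → ℝ → ℝ := fun m x => ∫ y in (0:ℝ)..H, Wx x y * sn m y with hA'
  have hAc : ∀ m, Continuous (A m) := fun m => Rect_cont W (sn m) H hW (hsnc m)
  have hA'c : ∀ m, Continuous (A' m) := fun m => Rect_cont Wx (sn m) H hWx (hsnc m)
  have hAd : ∀ m x, HasDerivAt (A m) (A' m x) x := fun m x =>
    Rect_deriv W Wx (sn m) H hW hWx (hsnc m) hdx x
  have hWfib : ∀ x, Continuous fun y => W x y := fun x =>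
    hW.comp (by fun_prop : Continuous fun y : ℝ => (x, y))
  have hWxfib : ∀ x, Continuous fun y => Wx x y := fun x =>
    hWx.comp (by fun_prop : Continuous fun y : ℝ => (x, y))
  have hWyfib : ∀ x, Continuous fun y => Wy x y := fun x =>
    hWy.comp (by fun_prop : Continuous fun y : ℝ => (x, y))
  -- fibre identities
  have hS : ∀ x ∈ Icc 0 L, HasSum (fun m => 2 / H * A m x ^ 2) (∫ y in (0:ℝ)..H, W x y ^ 2) :=
    fun x hx => h1 H hH (fun y => W x y) (hWfib x) (hbd x hx).1 (hbd x hx).2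
  have hB : ∀ x, ∀ K : ℕ, ∑ m ∈ Finset.range K, 2 / H * A' m x ^ 2 ≤
      ∫ y in (0:ℝ)..H, Wx x y ^ 2 := fun x K => h2 H hH (fun y => Wx x y) (hWxfib x) K
  have hY : ∀ x ∈ Icc 0 L, ∀ K : ℕ, ∑ m ∈ Finset.range K, ((m + 1) * Real.pi / H) ^ 2 *
      (2 / H * A m x ^ 2) ≤ ∫ y in (0:ℝ)..H, Wy x y ^ 2 := fun x hx K =>
    h4 H hH (fun y => W x y) (fun y => Wy x y) (hWyfib x) (hdy x) (hbd x hx).1 (hbd x hx).2 K
  -- the modes
  have hM : ∀ m : ℕ, μ ^ 2 * ∫ x in (0:ℝ)..L, A m x ^ 2 ≤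
      (∫ x in (0:ℝ)..L, A' m x ^ 2) + ((m + 1) * Real.pi / H) ^ 2 * ∫ x in (0:ℝ)..L, A m x ^ 2 := by
    intro m
    refine Rect_mode h3 hL (by positivity) hμ (A m) (A' m) (hA'c m) (hAd m) ?_
    intro n hn
    have e1 := hcoef n (m + 1) (by omega) (by
      have e2 : ((n * Real.pi / L) ^ 2 + ((m + 1) * Real.pi / H) ^ 2) * (L * H / Real.pi) ^ 2 <
          μ ^ 2 * (L * H / Real.pi) ^ 2 := mul_lt_mul_of_pos_right hn (by positivity)
      have e3 : ((n * Real.pi / L) ^ 2 + ((m + 1) * Real.pi / H) ^ 2) * (L * H / Real.pi) ^ 2 =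
          (n * H) ^ 2 + ((m + 1) * L) ^ 2 := by
        field_simp
      have e4 : μ ^ 2 * (L * H / Real.pi) ^ 2 = (μ * L * H / Real.pi) ^ 2 := by ring
      push_cast
      rw [e3, e4] at e2
      exact e2)
    refine Eq.trans ?_ e1
    refine intervalIntegral.integral_congr fun x _ => ?_
    refine ((intervalIntegral.integral_mul_const (Real.cos (n * Real.pi * x / L))
      (fun y => W x y * sn m y)).symm).trans ?_
    refine intervalIntegral.integral_congr fun y _ => ?_
    simp only [hsn]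
    push_cast
    ring
  -- finite sums
  have hK : ∀ K : ℕ, μ ^ 2 * ∑ m ∈ Finset.range K, ∫ x in (0:ℝ)..L, 2 / H * A m x ^ 2 ≤
      ∫ x in (0:ℝ)..L, ∫ y in (0:ℝ)..H, (Wx x y ^ 2 + Wy x y ^ 2) := by
    intro K
    have i1 : ∀ m, IntervalIntegrable (fun x => 2 / H * A' m x ^ 2) volume 0 L := fun m =>
      (continuous_const.mul ((hA'c m).pow 2)).intervalIntegrable _ _
    have i2 : ∀ m : ℕ, IntervalIntegrable (fun x => ((m + 1) * Real.pi / H) ^ 2 *
        (2 / H * A m x ^ 2)) volume 0 L := fun m =>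
      (continuous_const.mul (continuous_const.mul ((hAc m).pow 2))).intervalIntegrable _ _
    have c1 := Rect_cont_sq Wx H hWx
    have c2 := Rect_cont_sq Wy H hWy
    have e1 : ∫ x in (0:ℝ)..L, ∫ y in (0:ℝ)..H, (Wx x y ^ 2 + Wy x y ^ 2) =
        (∫ x in (0:ℝ)..L, ∫ y in (0:ℝ)..H, Wx x y ^ 2) +
          ∫ x in (0:ℝ)..L, ∫ y in (0:ℝ)..H, Wy x y ^ 2 := by
      rw [← intervalIntegral.integral_add (c1.intervalIntegrable _ _)
        (c2.intervalIntegrable _ _)]
      refine intervalIntegral.integral_congr fun x _ => ?_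
      exact intervalIntegral.integral_add (((hWxfib x).pow 2).intervalIntegrable _ _)
        (((hWyfib x).pow 2).intervalIntegrable _ _)
    have e2 : ∑ m ∈ Finset.range K, ∫ x in (0:ℝ)..L, 2 / H * A' m x ^ 2 ≤
        ∫ x in (0:ℝ)..L, ∫ y in (0:ℝ)..H, Wx x y ^ 2 := by
      rw [← intervalIntegral.integral_finsetSum fun m _ => i1 m]
      refine intervalIntegral.integral_mono_on hL.le ?_ (c1.intervalIntegrable _ _)
        fun x _ => hB x K
      exact (continuous_finsetSum _ fun m _ =>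
        continuous_const.mul ((hA'c m).pow 2)).intervalIntegrable _ _
    have e3 : ∑ m ∈ Finset.range K, ∫ x in (0:ℝ)..L, ((m + 1) * Real.pi / H) ^ 2 *
        (2 / H * A m x ^ 2) ≤ ∫ x in (0:ℝ)..L, ∫ y in (0:ℝ)..H, Wy x y ^ 2 := by
      rw [← intervalIntegral.integral_finsetSum fun m _ => i2 m]
      refine intervalIntegral.integral_mono_on hL.le ?_ (c2.intervalIntegrable _ _)
        fun x hx => hY x hx K
      exact (continuous_finsetSum _ fun m _ =>
        continuous_const.mul (continuous_const.mul ((hAc m).pow 2))).intervalIntegrable _ _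
    rw [e1]
    refine le_trans ?_ (add_le_add e2 e3)
    rw [Finset.mul_sum, ← Finset.sum_add_distrib]
    refine Finset.sum_le_sum fun m _ => ?_
    simp only [intervalIntegral.integral_const_mul]
    have e4 := mul_le_mul_of_nonneg_left (hM m) (by positivity : (0:ℝ) ≤ 2 / H)
    nlinarith [e4]
  -- the limit
  have hlim := (Rect_hasSum (fun m x => 2 / H * A m x ^ 2) (fun x => ∫ y in (0:ℝ)..H, W x y ^ 2)
    0 L hL.le (fun m => continuous_const.mul ((hAc m).pow 2)) (fun m x => by positivity)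
    (Rect_cont_sq W H hW) hS).tendsto_sum_nat
  exact le_of_tendsto (hlim.const_mul (μ ^ 2)) (Filter.Eventually.of_forall hK)

end Pool.Agent.Work.MP_33c50c_an.PK
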