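import Pool.Agent.Work.MP_33c50c_an.PK.Stmts
import Pool.Agent.Work.MP_33c50c_an.Var1

set_option autoImplicit false

open MeasureTheory Set

namespace Pool.Agent.Work.MP_33c50c_an.PK

open Pool.Agent.Work.MP_33c50c_an

/-- difference of two opposite characters -/
lemma Sin_ph_sub (ξ x : ℝ) :
    ph ξ x - ph ξ (-x) = -(2 * Complex.I) * ((Real.sin (ξ * x) : ℝ) : ℂ) := by
  unfold ph
  push_cast
  have h := Complex.two_sin ((ξ : ℂ) * (x : ℂ))
  have e1 : -(Complex.I * ((ξ : ℂ) * (x : ℂ))) = -((ξ : ℂ) * (x : ℂ)) * Complex.I := by ring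
  have e2 : -(Complex.I * ((ξ : ℂ) * (-(x : ℂ)))) = ((ξ : ℂ) * (x : ℂ)) * Complex.I := by ring
  rw [e1, e2]
  have h2 : -(2 * Complex.I) * Complex.sin ((ξ : ℂ) * (x : ℂ)) =
      -Complex.I * (2 * Complex.sin ((ξ : ℂ) * (x : ℂ))) := by ring
  rw [h2, h]
  linear_combination (Complex.exp (-((ξ : ℂ) * (x : ℂ)) * Complex.I)
    - Complex.exp ((ξ : ℂ) * (x : ℂ) * Complex.I)) * Complex.I_mul_I

/-- folding an integral over a double interval -/
lemma Sin_fold {E : Type} [NormedAddCommGroup E] [NormedSpace ℝ E] (L : ℝ)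
    (g : ℝ → E) (hg : Continuous g) :
    ∫ y in (0:ℝ)..(2 * L), g y = ∫ x in (0:ℝ)..L, (g x + g (2 * L - x)) := by
  have h1 : ∫ x in (0:ℝ)..L, g (2 * L - x) = ∫ x in L..(2 * L), g x := by
    rw [intervalIntegral.integral_comp_sub_left (fun x => g x) (2 * L)]
    congr 1 <;> ring
  have hg2 : Continuous fun x => g (2 * L - x) := hg.comp (by fun_prop)
  rw [intervalIntegral.integral_add (hg.intervalIntegrable _ _)
    (hg2.intervalIntegrable _ _), h1,
    intervalIntegral.integral_add_adjacent_intervals (hg.intervalIntegrable _ _)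
      (hg.intervalIntegrable _ _)]

theorem Sin_proof : SSin := by
  intro H hH g hg hg0 hgH
  set fr : ℝ → ℝ := fun x => if x ≤ H then g x else -g (2 * H - x) with hfr
  have hfrc : Continuous fr := by
    rw [hfr]
    apply Continuous.if_le hg (by fun_prop) continuous_id continuous_const
    intro x hx
    have hx' : x = H := hx
    rw [hx', show 2 * H - H = H by ring, hgH, neg_zero]
  set f : ℝ → ℂ := fun x => ((fr x : ℝ) : ℂ) with hf
  have hfc : Continuous f := by
    rw [hf]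
    exact Complex.continuous_ofReal.comp hfrc
  have f1 : ∀ x ∈ Icc 0 H, f x = ((g x : ℝ) : ℂ) := by
    intro x hx
    rw [hf]
    simp only [hfr]
    rw [if_pos hx.2]
  have f2 : ∀ x ∈ Icc 0 H, f (2 * H - x) = ((-g x : ℝ) : ℂ) := by
    intro x hx
    rw [hf]
    simp only [hfr]
    by_cases h : 2 * H - x ≤ H
    · have hxH : x = H := le_antisymm hx.2 (by linarith)
      rw [if_pos h, hxH, show 2 * H - H = H by ring, hgH, neg_zero]
    · rw [if_neg h]
      congr 3
      ring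
  have key := parseval_interval (2 * H) (by positivity) f hfc
  have hI : ∀ m : ℤ, ∫ y in (0:ℝ)..(2 * H), ph (2 * Real.pi / (2 * H) * m) y * f y =
      -(2 * Complex.I) *
        (((∫ x in (0:ℝ)..H, g x * Real.sin (m * Real.pi * x / H)) : ℝ) : ℂ) := by
    intro m
    rw [Sin_fold H (fun y => ph (2 * Real.pi / (2 * H) * m) y * f y)
      ((ph_continuous _).mul hfc),
      ← intervalIntegral.integral_ofReal, ← intervalIntegral.integral_const_mul]
    apply intervalIntegral.integral_congr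
    intro x hx
    rw [uIcc_of_le hH.le] at hx
    simp only
    rw [f1 x hx, f2 x hx, show 2 * H - x = 2 * H + -x by ring, ph_add_right,
      ph_eq_one (2 * Real.pi / (2 * H) * m) (2 * H) m (by field_simp), one_mul]
    have e := Sin_ph_sub (2 * Real.pi / (2 * H) * m) x
    rw [show 2 * Real.pi / (2 * H) * m * x = m * Real.pi * x / H by field_simp] at e
    rw [Complex.ofReal_mul, Complex.ofReal_neg]
    linear_combination ((g x : ℝ) : ℂ) * e
  have hN : ∫ y in (0:ℝ)..(2 * H), ‖f y‖ ^ 2 = 2 * ∫ x in (0:ℝ)..H, g x ^ 2 := by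
    rw [Sin_fold H (fun y => ‖f y‖ ^ 2) (by fun_prop), ← intervalIntegral.integral_const_mul]
    apply intervalIntegral.integral_congr
    intro x hx
    rw [uIcc_of_le hH.le] at hx
    simp only
    rw [f1 x hx, f2 x hx, Complex.norm_real, Complex.norm_real, Real.norm_eq_abs,
      Real.norm_eq_abs, sq_abs, sq_abs]
    ring
  rw [hN] at key
  simp_rw [hI] at key
  have hF : ∀ m : ℤ, ‖-(2 * Complex.I) *
        (((∫ x in (0:ℝ)..H, g x * Real.sin (m * Real.pi * x / H)) : ℝ) : ℂ)‖ ^ 2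
      = 4 * (∫ x in (0:ℝ)..H, g x * Real.sin (m * Real.pi * x / H)) ^ 2 := by
    intro m
    rw [norm_mul, norm_neg, norm_mul, Complex.norm_I, Complex.norm_real, Real.norm_eq_abs,
      mul_pow, sq_abs]
    norm_num
  simp_rw [hF] at key
  have k2 := key.nat_add_neg
  have z0 : ∫ x in (0:ℝ)..H, g x * Real.sin (((0 : ℤ) : ℝ) * Real.pi * x / H) = 0 := by
    simp
  rw [z0] at k2
  have k3 := (hasSum_nat_add_iff' 1).mpr k2
  have k4 := k3.mul_left (1 / (4 * H))
  have e1 : 1 / (4 * H) *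
      (2 * H * (2 * ∫ x in (0:ℝ)..H, g x ^ 2) + 4 * 0 ^ 2 -
        ∑ i ∈ Finset.range 1,
          (4 * (∫ x in (0:ℝ)..H, g x * Real.sin (((i : ℤ) : ℝ) * Real.pi * x / H)) ^ 2 +
            4 * (∫ x in (0:ℝ)..H, g x * Real.sin (((-(i : ℤ) : ℤ) : ℝ) * Real.pi * x / H)) ^ 2)) =
      ∫ x in (0:ℝ)..H, g x ^ 2 := by
    rw [Finset.sum_range_one]
    have z1 : ∫ x in (0:ℝ)..H, g x * Real.sin ((((0 : ℕ) : ℤ) : ℝ) * Real.pi * x / H) = 0 := by
      simp
    have z2 : ∫ x in (0:ℝ)..H,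
        g x * Real.sin (((-((0 : ℕ) : ℤ) : ℤ) : ℝ) * Real.pi * x / H) = 0 := by
      simp
    rw [z1, z2]
    field_simp
    ring
  rw [e1] at k4
  have e3 : (fun m : ℕ => 2 / H *
      (∫ y in (0:ℝ)..H, g y * Real.sin ((m + 1) * Real.pi * y / H)) ^ 2) =
      fun i : ℕ => 1 / (4 * H) *
        (4 * (∫ x in (0:ℝ)..H, g x * Real.sin ((((i + 1 : ℕ) : ℤ) : ℝ) * Real.pi * x / H)) ^ 2 +
          4 * (∫ x in (0:ℝ)..H,
            g x * Real.sin (((-((i + 1 : ℕ) : ℤ) : ℤ) : ℝ) * Real.pi * x / H)) ^ 2) := by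
    funext n
    have e2 : (∫ x in (0:ℝ)..H,
          g x * Real.sin (((-((n + 1 : ℕ) : ℤ) : ℤ) : ℝ) * Real.pi * x / H)) =
        -∫ x in (0:ℝ)..H, g x * Real.sin ((((n + 1 : ℕ) : ℤ) : ℝ) * Real.pi * x / H) := by
      rw [← intervalIntegral.integral_neg]
      congr 1
      funext x
      rw [← mul_neg, ← Real.sin_neg]
      congr 2
      push_cast
      ring
    rw [e2, neg_sq]
    have e4 : (∫ x in (0:ℝ)..H, g x * Real.sin ((((n + 1 : ℕ) : ℤ) : ℝ) * Real.pi * x / H)) =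
        ∫ y in (0:ℝ)..H, g y * Real.sin ((n + 1) * Real.pi * y / H) := by
      push_cast
      rfl
    rw [e4]
    field_simp
    ring
  rw [e3]
  exact k4

end Pool.Agent.Work.MP_33c50c_an.PK
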