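import Pool.Agent.Work.MP_33c50c_an.PK.Stmts

set_option autoImplicit false

open MeasureTheory Set
open scoped ENNReal ContDiff

namespace Pool.Agent.Work.MP_33c50c_an.PK

open Pool.Agent.Work.MP_33c50c_an

/-- the integral over a symmetric interval. -/
theorem Sym_int (g : ℝ → ℝ) (hg : Continuous g) (a b c : ℝ) (hab : a ≤ b)
    (hs : ∀ x ∈ Icc a b, g x + g (a + b - x) = c) :
    ∫ x in a..b, g x = (b - a) * c / 2 := by
  have h1 : ∫ x in a..b, g (a + b - x) = ∫ x in a..b, g x := by
    rw [intervalIntegral.integral_comp_sub_left (fun x => g x) (a + b)]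
    congr 1 <;> ring
  have h2 : ∫ x in a..b, (g x + g (a + b - x)) = ∫ x in a..b, c := by
    apply intervalIntegral.integral_congr
    intro x hx
    rw [uIcc_of_le hab] at hx
    exact hs x hx
  have h3 : ∫ x in a..b, (g x + g (a + b - x)) =
      (∫ x in a..b, g x) + ∫ x in a..b, g (a + b - x) := by
    apply intervalIntegral.integral_add
    · exact hg.intervalIntegrable _ _
    · exact (hg.comp (continuous_const.sub continuous_id)).intervalIntegrable _ _
  rw [h3, h1, intervalIntegral.integral_const, smul_eq_mul] at h2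
  linarith

/-- symmetric graph domains. -/
theorem Sym_proof (h1 : SPerfect) (h2 : SSymP) (h3 : SVol) : SSym := by
  intro h hc h0 n t hn hi
  obtain ⟨P, hp, hA⟩ := h2 h hc h0 n t hn hi
  obtain ⟨ho, hv⟩ := h3 0 h continuous_zero hc h0
  apply h1 _ ho P
  rw [hA, hp, hv (t 0), ← hn]
  have hg : Continuous fun x : ℝ => h (x : AddCircle (2 * Real.pi)) :=
    hc.comp (AddCircle.continuous_mk' _)
  have e1 : ∫ x in (t 0)..(t n), h (x : AddCircle (2 * Real.pi)) =
      ∑ i ∈ Finset.range n, ∫ x in (t i)..(t (i + 1)), h (x : AddCircle (2 * Real.pi)) := by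
    rw [intervalIntegral.sum_integral_adjacent_intervals]
    intro k _
    exact hg.intervalIntegrable _ _
  have e2 : ∀ i ∈ Finset.range n, ∫ x in (t i)..(t (i + 1)), h (x : AddCircle (2 * Real.pi)) =
      (t (i + 1) - t i) * (h (t i : AddCircle (2 * Real.pi)) +
        h (t (i + 1) : AddCircle (2 * Real.pi))) / 2 := by
    intro i hi'
    have := hi i (Finset.mem_range.1 hi')
    exact Sym_int (fun x : ℝ => h (x : AddCircle (2 * Real.pi))) hg (t i) (t (i + 1)) _
      this.1.le this.2.2
  rw [e1, Finset.sum_congr rfl e2, ← Finset.sum_div]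
  have e3 : ((2 : ℕ) : ℝ≥0∞) = ENNReal.ofReal 2 := by
    simp
  rw [e3, ← ENNReal.ofReal_mul (by norm_num)]
  congr 1
  ring

end Pool.Agent.Work.MP_33c50c_an.PK
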