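import Pool.Agent.Work.MP_33c50c_an.PK.Stmts

set_option autoImplicit false

open MeasureTheory Set
open scoped ENNReal ContDiff

namespace Pool.Agent.Work.MP_33c50c_an.PK

open Pool.Agent.Work.MP_33c50c_an

lemma SymP_mem (h : AddCircle (2 * Real.pi) → ℝ) (q : Fin 2) (a L c g x y : ℝ)
    (hg : h ((a + x : ℝ) : AddCircle (2 * Real.pi)) = g)
    (hg' : h ((a + x : ℝ) : AddCircle (2 * Real.pi)) +
      h ((a + L - x : ℝ) : AddCircle (2 * Real.pi)) = c) :
    place a L (decide (q = 1)) (decide (q = 1)) (if q = 1 then c else 0) x y ∈ graphDomain 0 h ↔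
      (q = 0 ∧ 0 < y ∧ y < g) ∨ (q = 1 ∧ g < y ∧ y < c) := by
  fin_cases q
  · simp [place, graphDomain, ← hg]
  · simp [place, graphDomain]
    simp only [AddCircle.coe_add, AddCircle.coe_sub] at hg hg'
    constructor
    · rintro ⟨h1, h2⟩
      constructor <;> linarith
    · rintro ⟨h1, h2⟩
      constructor <;> linarith

theorem SymP_proof : SSymP := by
  intro h hcont hpos n t hn ht
  have hn0 : 0 < n := by
    rcases Nat.eq_zero_or_pos n with h0 | h0
    · subst h0
      have := Real.pi_pos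
      linarith
    · exact h0
  let r : ℕ → Fin n := fun i => ⟨min i (n - 1), by omega⟩
  have hr : ∀ i < n, ((r i : Fin n) : ℕ) = i := fun i hi => by
    show min i (n - 1) = i
    omega
  have hsymm : ∀ i < n, ∀ x ∈ Ioo (0:ℝ) (t (i + 1) - t i),
      h ((t i + x : ℝ) : AddCircle (2 * Real.pi)) +
        h ((t i + (t (i + 1) - t i) - x : ℝ) : AddCircle (2 * Real.pi)) =
      h (t i : AddCircle (2 * Real.pi)) + h (t (i + 1) : AddCircle (2 * Real.pi)) := by
    intro i hi x hx
    have := (ht i hi).2.2 (t i + x) ⟨by linarith [hx.1], by linarith [hx.2]⟩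
    rw [← this]
    congr 3
    ring
  refine ⟨{
    p := 2
    nR := n
    L := fun ρ => t ((ρ : ℕ) + 1) - t (ρ : ℕ)
    H := fun ρ => h (t (ρ : ℕ) : AddCircle (2 * Real.pi)) +
      h (t ((ρ : ℕ) + 1) : AddCircle (2 * Real.pi))
    n := fun _ => n
    t := fun _ i => t i
    r := fun _ i => r i
    sx := fun q _ => decide (q = 1)
    sy := fun q _ => decide (q = 1)
    c := fun q i => if q = 1 then h (t ((r i : Fin n) : ℕ) : AddCircle (2 * Real.pi)) +
      h (t (((r i : Fin n) : ℕ) + 1) : AddCircle (2 * Real.pi)) else 0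
    p_pos := by norm_num
    L_pos := fun ρ => by have := (ht ρ ρ.2).1; linarith
    H_nonneg := fun ρ => add_nonneg (hpos _) (hpos _)
    thin := fun ρ => (ht ρ ρ.2).2.1
    around := fun _ => hn
    width := fun q i hi => by
      simp only [hr i hi]
      ring
    inside := fun q i hi x hx y hy => ?_
    disj := fun q i q' i' hi hi' hne hrr x hx y => ?_ }, rfl, ?_⟩
  · simp only [hr i hi] at hx hy ⊢
    have hs := hsymm i hi x hx
    rw [SymP_mem h q (t i) _ _ _ x y rfl hs] at hy
    have h1 := hpos ((t i + x : ℝ) : AddCircle (2 * Real.pi))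
    have h2 := hpos ((t i + (t (i + 1) - t i) - x : ℝ) : AddCircle (2 * Real.pi))
    rcases hy with ⟨_, hy1, hy2⟩ | ⟨_, hy1, hy2⟩
    · exact ⟨hy1, by linarith⟩
    · exact ⟨by linarith, hy2⟩
  · have hii : i = i' := by
      have := congrArg (fun z : Fin n => (z : ℕ)) hrr
      simp only [hr i hi, hr i' hi'] at this
      exact this
    subst hii
    have hqq : q ≠ q' := fun h' => hne (by rw [h'])
    simp only [hr i hi] at hx ⊢
    have hs := hsymm i hi x hx
    rw [SymP_mem h q (t i) _ _ _ x y rfl hs, SymP_mem h q' (t i) _ _ _ x y rfl hs]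
    rintro ⟨h1, h2⟩
    rcases h1 with ⟨hq, hy1, hy2⟩ | ⟨hq, hy1, hy2⟩ <;>
      rcases h2 with ⟨hq', hz1, hz2⟩ | ⟨hq', hz1, hz2⟩
    · exact hqq (hq.trans hq'.symm)
    · linarith
    · linarith
    · exact hqq (hq.trans hq'.symm)
  · exact Fin.sum_univ_eq_sum_range (fun i => (t (i + 1) - t i) *
        (h (t i : AddCircle (2 * Real.pi)) + h (t (i + 1) : AddCircle (2 * Real.pi)))) n

end Pool.Agent.Work.MP_33c50c_an.PK
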