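import Pool.Agent.Work.MP_33c50c_an.PK.Stmts

set_option autoImplicit false

/-!
# The volume of a graph domain
-/

open MeasureTheory Set
open scoped ENNReal

namespace Pool.Agent.Work.MP_33c50c_an.PK

open Pool.Agent.Work.MP_33c50c_an

lemma Vol_eq (f h : AddCircle (2 * Real.pi) → ℝ) :
    graphDomain f h = regionBetween f (f + h) univ := by
  ext p
  simp [graphDomain, regionBetween]

lemma Vol_open (f h : AddCircle (2 * Real.pi) → ℝ) (hf : Continuous f) (hh : Continuous h) :
    IsOpen (graphDomain f h) := by
  have h1 : IsOpen {p : AddCircle (2 * Real.pi) × ℝ | f p.1 < p.2} :=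
    isOpen_lt (hf.comp continuous_fst) continuous_snd
  have h2 : IsOpen {p : AddCircle (2 * Real.pi) × ℝ | p.2 < f p.1 + h p.1} :=
    isOpen_lt continuous_snd ((hf.comp continuous_fst).add (hh.comp continuous_fst))
  exact h1.inter h2

theorem Vol_proof : SVol := by
  intro f h hf hh h0
  refine ⟨Vol_open f h hf hh, fun a => ?_⟩
  have : Fact (0 < 2 * Real.pi) := ⟨by positivity⟩
  have hfi : Integrable f volume := hf.integrable_of_hasCompactSupport
    (HasCompactSupport.of_compactSpace f)
  have hhi : Integrable h volume := hh.integrable_of_hasCompactSupport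
    (HasCompactSupport.of_compactSpace h)
  have h1 : (volume : Measure Cyl) (graphDomain f h) =
      ((volume : Measure (AddCircle (2 * Real.pi))).prod (volume : Measure ℝ))
        (regionBetween f (f + h) univ) := by
    rw [Vol_eq]; rfl
  rw [h1, volume_regionBetween_eq_integral hfi.integrableOn (hfi.add hhi).integrableOn
    MeasurableSet.univ (fun x _ => by
      simp only [Pi.add_apply]; linarith [h0 x])]
  congr 1
  rw [AddCircle.intervalIntegral_preimage (2 * Real.pi) a h, Measure.restrict_univ]
  refine integral_congr_ae (Filter.Eventually.of_forall fun θ => ?_)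
  simp

end Pool.Agent.Work.MP_33c50c_an.PK
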