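import Pool.Agent.Work.MP_33c50c_an.PK.Stmts
import Pool.Agent.Work.MP_33c50c_an.Cyl2

set_option autoImplicit false

open MeasureTheory Set
open scoped ENNReal ContDiff

namespace Pool.Agent.Work.MP_33c50c_an.PK

open Pool.Agent.Work.MP_33c50c_an

theorem Wen_cont (a w : ℝ) (sx sy : Bool) (c : ℝ) :
    Continuous fun q : ℝ × ℝ => place a w sx sy c q.1 q.2 := by
  have h1 : Continuous fun q : ℝ × ℝ =>
      ((if sx then a + w - q.1 else a + q.1, if sy then c - q.2 else q.2 - c) : ℝ × ℝ) := by
    cases sx <;> cases sy <;> simp only [Bool.false_eq_true, if_true, if_false] <;> fun_prop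
  exact pt_continuous.comp h1

theorem Wen_bd (F : Cyl → ℝ) (hs : HasCompactSupport F) (a w : ℝ) (sx sy : Bool) (c : ℝ) :
    ∃ B : ℝ, ∀ x y : ℝ, y ∉ Ioc (-B) B → F (place a w sx sy c x y) = 0 := by
  obtain ⟨R, hR⟩ := hs.isCompact.exists_bound_of_continuousOn
    (f := fun p : Cyl => p.2) continuous_snd.continuousOn
  refine ⟨|R| + |c| + 1, fun x y hy => ?_⟩
  by_contra hcon
  have h1 : place a w sx sy c x y ∈ tsupport F := subset_tsupport _ hcon
  have h2 := hR _ h1
  have h3 : |y| ≤ |R| + |c| := by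
    have h4 : |y| ≤ ‖(place a w sx sy c x y).2‖ + |c| := by
      change |y| ≤ |if sy then c - y else y - c| + |c|
      cases sy
      · simp only [Bool.false_eq_true, if_false]
        calc |y| = |(y - c) + c| := by rw [sub_add_cancel]
          _ ≤ _ := abs_add_le _ _
      · simp only [if_true]
        calc |y| = |(c - y) - c| := by rw [show (c - y) - c = -y by ring, abs_neg]
          _ ≤ _ := abs_sub _ _
    have h5 := le_abs_self R
    linarith
  apply hy
  have h6 := abs_le.1 h3
  constructor <;> linarith [h6.1, h6.2]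

theorem Wen_int (F : Cyl → ℝ) (hF : Continuous F) (hs : HasCompactSupport F) (a w : ℝ)
    (sx sy : Bool) (c : ℝ) (x : ℝ) :
    Integrable (fun y => F (place a w sx sy c x y)) := by
  obtain ⟨B, hB⟩ := Wen_bd F hs a w sx sy c
  refine Continuous.integrable_of_hasCompactSupport ?_ ?_
  · exact hF.comp ((Wen_cont a w sx sy c).comp (Continuous.prodMk_right x))
  · exact HasCompactSupport.intro (isCompact_Icc (a := -B) (b := B)) fun y hy =>
      hB x y fun h => hy (Ioc_subset_Icc_self h)

theorem Wen_cx (F : Cyl → ℝ) (hF : Continuous F) (hs : HasCompactSupport F) (a w : ℝ)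
    (sx sy : Bool) (c : ℝ) :
    Continuous (fun x => ∫ y, F (place a w sx sy c x y)) := by
  obtain ⟨B, hB⟩ := Wen_bd F hs a w sx sy c
  rcases le_or_gt (-B) B with h | h
  · have h1 : (fun x => ∫ y, F (place a w sx sy c x y)) =
        fun x => ∫ y in (-B)..B, F (place a w sx sy c x y) := by
      funext x
      rw [intervalIntegral.integral_of_le h]
      exact (setIntegral_eq_integral_of_forall_compl_eq_zero fun y hy => hB x y hy).symm
    rw [h1]
    refine intervalIntegral.continuous_parametric_intervalIntegral_of_continuous' ?_ _ _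
    exact hF.comp (Wen_cont a w sx sy c)
  · have h1 : (fun x => ∫ y, F (place a w sx sy c x y)) = fun _ => 0 := by
      funext x
      have h2 : (fun y => F (place a w sx sy c x y)) = fun _ => 0 := by
        funext y
        refine hB x y fun hy => ?_
        have := hy.1.trans_le hy.2
        linarith
      rw [h2, integral_zero]
    rw [h1]
    exact continuous_const

theorem Wen_gen (h2 : SPieces) {Ω : Set Cyl} (P : Packing Ω) (F : Fin P.p → Cyl → ℝ)
    (hF : ∀ q, Continuous (F q)) (hs : ∀ q, HasCompactSupport (F q))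
    (G : Fin P.nR → ℝ → ℝ → ℝ)
    (hG : ∀ ρ, ∀ x ∈ Ioo 0 (P.L ρ), ∀ y, G ρ x y =
      ∑ q, ∑ i ∈ Finset.range (P.n q), if P.r q i = ρ then F q (P.pl q i x y) else 0)
    (hz : ∀ ρ, ∀ x ∈ Ioo 0 (P.L ρ), ∀ y, ¬ (0 < y ∧ y < P.H ρ) → G ρ x y = 0) :
    ∑ q, ∫ p, F q p = ∑ ρ, ∫ x in (0:ℝ)..(P.L ρ), ∫ y in (0:ℝ)..(P.H ρ), G ρ x y := by
  have h0 : ∀ ρ, ∫ x in (0:ℝ)..(P.L ρ), ∫ y in (0:ℝ)..(P.H ρ), G ρ x y =
      ∑ q, ∑ i ∈ Finset.range (P.n q), if P.r q i = ρ then
        ∫ x in (0:ℝ)..(P.L ρ), ∫ y, F q (P.pl q i x y) else 0 := by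
    intro ρ
    have h1 : ∀ x ∈ Ioo 0 (P.L ρ), ∫ y in (0:ℝ)..(P.H ρ), G ρ x y =
        ∑ q, ∑ i ∈ Finset.range (P.n q), if P.r q i = ρ then
          ∫ y, F q (P.pl q i x y) else 0 := by
      intro x hx
      have hz' : ∀ y : ℝ, y ∉ Ioc 0 (P.H ρ) → G ρ x y = 0 := fun y hy =>
        hz ρ x hx y fun h => hy ⟨h.1, h.2.le⟩
      rw [intervalIntegral.integral_of_le (P.H_nonneg ρ),
        setIntegral_eq_integral_of_forall_compl_eq_zero hz']
      simp_rw [hG ρ x hx]
      have h3 : ∀ q i, Integrable (fun y => if P.r q i = ρ then F q (P.pl q i x y) else 0) := by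
        intro q i
        by_cases h : P.r q i = ρ
        · simp only [if_pos h]
          exact Wen_int (F q) (hF q) (hs q) _ _ _ _ _ x
        · simp only [if_neg h]
          exact integrable_zero _ _ _
      rw [integral_finsetSum _ fun q _ => integrable_finsetSum _ fun i _ => h3 q i]
      refine Finset.sum_congr rfl fun q _ => ?_
      rw [integral_finsetSum _ fun i _ => h3 q i]
      refine Finset.sum_congr rfl fun i _ => ?_
      by_cases h : P.r q i = ρ
      · simp only [if_pos h]
      · simp only [if_neg h, integral_zero]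
    rw [intervalIntegral.integral_of_le (P.L_pos ρ).le, integral_Ioc_eq_integral_Ioo,
      setIntegral_congr_fun measurableSet_Ioo h1, ← integral_Ioc_eq_integral_Ioo,
      ← intervalIntegral.integral_of_le (P.L_pos ρ).le]
    have h4 : ∀ q i, Continuous (fun x => if P.r q i = ρ then ∫ y, F q (P.pl q i x y) else 0) := by
      intro q i
      by_cases h : P.r q i = ρ
      · simp only [if_pos h]
        exact Wen_cx (F q) (hF q) (hs q) _ _ _ _ _
      · simp only [if_neg h]
        exact continuous_const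
    rw [intervalIntegral.integral_finsetSum fun q _ =>
      (continuous_finsetSum _ fun i _ => h4 q i).intervalIntegrable _ _]
    refine Finset.sum_congr rfl fun q _ => ?_
    rw [intervalIntegral.integral_finsetSum fun i _ => (h4 q i).intervalIntegrable _ _]
    refine Finset.sum_congr rfl fun i _ => ?_
    by_cases h : P.r q i = ρ
    · simp only [if_pos h]
    · simp only [if_neg h, intervalIntegral.integral_zero]
  simp_rw [h0]
  rw [Finset.sum_comm]
  refine Finset.sum_congr rfl fun q _ => ?_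
  rw [h2 (F q) (hF q) (hs q) (P.n q) (P.t q) (fun i => P.L (P.r q i)) (P.sx q) (P.sy q) (P.c q)
    (P.around q) (fun i hi => ⟨P.L_pos _, P.width q i hi⟩), Finset.sum_comm]
  refine Finset.sum_congr rfl fun i _ => ?_
  rw [Finset.sum_ite_eq, if_pos (Finset.mem_univ _)]
  rfl

theorem Wen_proof (h1 : SWpt) (h2 : SPieces) (_h3 : SWreg) : SWen := by
  intro Ω hΩ P u hu
  have hl : ∀ q, ContDiff ℝ 1 (lft (u q)) := fun q => test_lft (hu q)
  have h := Wen_gen h2 P (fun q p => dX (u q) p ^ 2 + dY (u q) p ^ 2)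
    (fun q => ((cont_dX (u q) (hl q)).pow 2).add ((cont_dY (u q) (hl q)).pow 2))
    (fun q => ?_) (fun ρ x y => P.Wx u ρ x y ^ 2 + P.Wy u ρ x y ^ 2)
    (fun ρ x hx y => (h1 Ω hΩ P u hu ρ x hx y).2.1)
    (fun ρ x hx y hy => ?_)
  · exact h
  · have e1 : HasCompactSupport (fun p => dX (u q) p ^ 2) :=
      (compact_dX (u q) (hu q).2.1).comp_left (g := fun t : ℝ => t ^ 2) (by norm_num)
    have e2 : HasCompactSupport (fun p => dY (u q) p ^ 2) :=
      (compact_dY (u q) (hu q).2.1).comp_left (g := fun t : ℝ => t ^ 2) (by norm_num)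
    exact e1.add e2
  · obtain ⟨_, b, c⟩ := (h1 Ω hΩ P u hu ρ x hx y).2.2 hy
    rw [b, c]
    norm_num

end Pool.Agent.Work.MP_33c50c_an.PK
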