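import Pool.Agent.Work.MP_33c50c_an.PK.Stmts

set_option autoImplicit false

open MeasureTheory Set
open scoped ENNReal ContDiff

namespace Pool.Agent.Work.MP_33c50c_an.PK

open Pool.Agent.Work.MP_33c50c_an

theorem Wmass_place (a w : ℝ) (sx sy : Bool) (c x y : ℝ) :
    place a w sx sy c x y = pt (if sx then a + w - x else a + x) (if sy then c - y else y - c) := by
  cases sx <;> cases sy <;> simp [place, pt]

theorem Wmass_place_cont (a w : ℝ) (sx sy : Bool) (c : ℝ) :
    Continuous fun q : ℝ × ℝ => place a w sx sy c q.1 q.2 := by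
  have h : Continuous fun q : ℝ × ℝ =>
      ((if sx then a + w - q.1 else a + q.1), (if sy then c - q.2 else q.2 - c)) := by
    cases sx <;> cases sy <;>
    · simp only [if_true, if_false, Bool.false_eq_true]
      fun_prop
  have h2 := pt_continuous.comp h
  refine h2.congr fun q => ?_
  rw [Wmass_place]; rfl

theorem Wmass_bdd (F : Cyl → ℝ) (hF : HasCompactSupport F) (a w : ℝ) (sx sy : Bool) (c : ℝ) :
    ∃ R : ℝ, 0 < R ∧ ∀ x y : ℝ, R ≤ |y| → F (place a w sx sy c x y) = 0 := by
  have h1 : IsCompact (Prod.snd '' tsupport F) := hF.isCompact.image continuous_snd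
  obtain ⟨R0, hR0⟩ := h1.isBounded.exists_norm_le
  refine ⟨|R0| + |c| + 1, by positivity, fun x y hy => ?_⟩
  by_contra h
  have h2 : place a w sx sy c x y ∈ tsupport F := subset_tsupport F h
  have h3 := hR0 _ ⟨_, h2, rfl⟩
  rw [Wmass_place] at h3
  have h4 : |y| ≤ |R0| + |c| := by
    have h5 : |(if sy then c - y else y - c : ℝ)| ≤ |R0| := by
      refine le_trans ?_ (le_abs_self R0)
      simpa [pt] using h3
    have h6 : |y - c| ≤ |R0| := by
      cases sy
      · simpa using h5
      · rw [abs_sub_comm]; simpa using h5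
    have h7 : |y| ≤ |y - c| + |c| := by
      have := abs_add_le (y - c) c
      simpa using this
    linarith
  linarith

theorem Wmass_cs (F : Cyl → ℝ) (hF : HasCompactSupport F) (a w : ℝ) (sx sy : Bool) (c x : ℝ) :
    HasCompactSupport fun y => F (place a w sx sy c x y) := by
  obtain ⟨R, -, hR⟩ := Wmass_bdd F hF a w sx sy c
  refine HasCompactSupport.of_support_subset_isCompact (isCompact_Icc : IsCompact (Icc (-R) R))
    fun y hy => ?_
  by_contra h
  refine hy (hR x y ?_)
  by_contra h2
  push Not at h2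
  exact h ⟨(abs_lt.mp h2).1.le, (abs_lt.mp h2).2.le⟩

theorem Wmass_int (F : Cyl → ℝ) (hc : Continuous F) (hF : HasCompactSupport F) (a w : ℝ)
    (sx sy : Bool) (c x : ℝ) : Integrable fun y => F (place a w sx sy c x y) := by
  refine Continuous.integrable_of_hasCompactSupport ?_ (Wmass_cs F hF a w sx sy c x)
  have := (hc.comp (Wmass_place_cont a w sx sy c)).comp (Continuous.prodMk_right x)
  exact this

theorem Wmass_cont (F : Cyl → ℝ) (hc : Continuous F) (hF : HasCompactSupport F) (a w : ℝ)
    (sx sy : Bool) (c : ℝ) : Continuous fun x => ∫ y, F (place a w sx sy c x y) := by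
  obtain ⟨R, hR0, hR⟩ := Wmass_bdd F hF a w sx sy c
  have h1 : ∀ x, ∫ y, F (place a w sx sy c x y) =
      ∫ y in (-R)..R, F (place a w sx sy c x y) := by
    intro x
    refine (intervalIntegral.integral_eq_integral_of_support_subset ?_).symm
    intro y hy
    by_contra h
    refine hy (hR x y ?_)
    by_contra h2
    push Not at h2
    exact h ⟨(abs_lt.mp h2).1, (abs_lt.mp h2).2.le⟩
  simp_rw [h1]
  have h2 : Continuous (Function.uncurry fun x y => F (place a w sx sy c x y)) :=
    hc.comp (Wmass_place_cont a w sx sy c)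
  exact intervalIntegral.continuous_parametric_intervalIntegral_of_continuous' h2 _ _

/-- the general superposition principle. -/
theorem Wmass_gen {Ω : Set Cyl} (h2 : SPieces) (P : Packing Ω) (F : Fin P.p → Cyl → ℝ)
    (hc : ∀ q, Continuous (F q)) (hs : ∀ q, HasCompactSupport (F q))
    (G : Fin P.nR → ℝ → ℝ → ℝ)
    (hG : ∀ ρ, ∀ x ∈ Ioo 0 (P.L ρ), ∀ y, G ρ x y =
      ∑ q, ∑ i ∈ Finset.range (P.n q), if P.r q i = ρ then F q (P.pl q i x y) else 0)
    (hG0 : ∀ ρ, ∀ x ∈ Ioo 0 (P.L ρ), ∀ y, ¬ (0 < y ∧ y < P.H ρ) → G ρ x y = 0) :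
    ∑ q, ∫ p, F q p = ∑ ρ, ∫ x in (0:ℝ)..(P.L ρ), ∫ y in (0:ℝ)..(P.H ρ), G ρ x y := by
  have e1 : ∀ q, ∫ p, F q p = ∑ i ∈ Finset.range (P.n q),
      ∫ x in (0:ℝ)..(P.L (P.r q i)), ∫ y, F q (P.pl q i x y) := by
    intro q
    exact h2 (F q) (hc q) (hs q) (P.n q) (P.t q) (fun i => P.L (P.r q i)) (P.sx q) (P.sy q)
      (P.c q) (P.around q) (fun i hi => ⟨P.L_pos _, P.width q i hi⟩)
  have hint : ∀ q i x, Integrable fun y => F q (P.pl q i x y) := fun q i x =>
    Wmass_int (F q) (hc q) (hs q) _ _ _ _ _ x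
  have hcont : ∀ q i, Continuous fun x => ∫ y, F q (P.pl q i x y) := fun q i =>
    Wmass_cont (F q) (hc q) (hs q) _ _ _ _ _
  have e2 : ∀ ρ, ∫ x in (0:ℝ)..(P.L ρ), ∫ y in (0:ℝ)..(P.H ρ), G ρ x y =
      ∑ q, ∑ i ∈ Finset.range (P.n q), if P.r q i = ρ then
        ∫ x in (0:ℝ)..(P.L ρ), ∫ y, F q (P.pl q i x y) else 0 := by
    intro ρ
    have e3 : ∫ x in (0:ℝ)..(P.L ρ), ∫ y in (0:ℝ)..(P.H ρ), G ρ x y =
        ∫ x in (0:ℝ)..(P.L ρ), ∑ q, ∑ i ∈ Finset.range (P.n q), if P.r q i = ρ then
          ∫ y, F q (P.pl q i x y) else 0 := by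
      refine intervalIntegral.integral_congr_Ioo_of_le (P.L_pos ρ).le fun x hx => ?_
      have e4 : ∫ y in (0:ℝ)..(P.H ρ), G ρ x y = ∫ y, G ρ x y := by
        refine intervalIntegral.integral_eq_integral_of_support_subset ?_
        intro y hy
        by_contra h
        refine hy (hG0 ρ x hx y fun h3 => h ⟨h3.1, h3.2.le⟩)
      show ∫ y in (0:ℝ)..(P.H ρ), G ρ x y = _
      rw [e4]
      have e5 : (fun y => G ρ x y) = fun y => ∑ q, ∑ i ∈ Finset.range (P.n q),
          if P.r q i = ρ then F q (P.pl q i x y) else 0 := funext fun y => hG ρ x hx y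
      rw [e5, integral_finsetSum]
      · refine Finset.sum_congr rfl fun q _ => ?_
        rw [integral_finsetSum]
        · refine Finset.sum_congr rfl fun i _ => ?_
          split_ifs
          · rfl
          · simp
        · intro i _
          split_ifs
          · exact hint q i x
          · exact integrable_zero _ _ _
      · intro q _
        refine integrable_finsetSum _ fun i _ => ?_
        split_ifs
        · exact hint q i x
        · exact integrable_zero _ _ _
    rw [e3, intervalIntegral.integral_finsetSum]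
    · refine Finset.sum_congr rfl fun q _ => ?_
      rw [intervalIntegral.integral_finsetSum]
      · refine Finset.sum_congr rfl fun i _ => ?_
        split_ifs
        · rfl
        · simp
      · intro i _
        split_ifs
        · exact (hcont q i).intervalIntegrable _ _
        · exact intervalIntegrable_const
    · intro q _
      refine Continuous.intervalIntegrable ?_ _ _
      refine continuous_finsetSum _ fun i _ => ?_
      split_ifs
      · exact hcont q i
      · exact continuous_const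
  simp_rw [e2, e1]
  rw [Finset.sum_comm]
  refine Finset.sum_congr rfl fun q _ => ?_
  rw [Finset.sum_comm]
  refine Finset.sum_congr rfl fun i _ => ?_
  rw [Finset.sum_ite_eq Finset.univ (P.r q i)
    (fun ρ => ∫ x in (0:ℝ)..(P.L ρ), ∫ y, F q (P.pl q i x y)), if_pos (Finset.mem_univ _)]

theorem Wmass_proof (h1 : SWpt) (h2 : SPieces) (h3 : SWreg) : SWmass := by
  intro Ω hΩ P u hu
  have hcu : ∀ q, Continuous (u q) := fun q =>
    continuous_of_lft (u q) (hu q).1.continuous
  refine Wmass_gen h2 P (fun q p => u q p ^ 2) (fun q => (hcu q).pow 2) (fun q => ?_)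
    (fun ρ x y => P.W u ρ x y ^ 2) (fun ρ x hx y => (h1 Ω hΩ P u hu ρ x hx y).1)
    (fun ρ x hx y h => ?_)
  · refine HasCompactSupport.mono (hu q).2.1 ?_
    intro p hp h
    refine hp ?_
    simp only at h ⊢
    rw [h]; simp
  · show P.W u ρ x y ^ 2 = 0
    rw [((h1 Ω hΩ P u hu ρ x hx y).2.2 h).1]; simp

end Pool.Agent.Work.MP_33c50c_an.PK
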