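import Pool.Agent.Work.MP_33c50c_an.PK.Stmts
import Pool.Agent.Work.MP_33c50c_an.Cyl2

set_option autoImplicit false

open MeasureTheory Set
open scoped ENNReal ContDiff

namespace Pool.Agent.Work.MP_33c50c_an.PK

open Pool.Agent.Work.MP_33c50c_an

theorem Wreg_proof (h1 : SPlaceD) (h2 : SWpt) : SWreg := by
  intro Ω hΩ P u hu ρ
  have hC : ∀ q, ContDiff ℝ 1 (lft (u q)) := fun q => test_lft (hu q)
  have hplc : ∀ q i, Continuous fun z : ℝ × ℝ => P.pl q i z.1 z.2 := fun q i =>
    (h1 (u q) (hC q) _ _ _ _ _).1
  have hW : Continuous fun z : ℝ × ℝ => P.W u ρ z.1 z.2 := by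
    unfold Packing.W
    refine continuous_finsetSum _ fun q _ => continuous_finsetSum _ fun i _ => ?_
    by_cases hr : P.r q i = ρ
    · simp only [hr, if_true]
      exact (cont_f (u q) (hC q)).comp (hplc q i)
    · simp only [hr, if_false]
      exact continuous_const
  have hWx : Continuous fun z : ℝ × ℝ => P.Wx u ρ z.1 z.2 := by
    unfold Packing.Wx
    refine continuous_finsetSum _ fun q _ => continuous_finsetSum _ fun i _ => ?_
    by_cases hr : P.r q i = ρ
    · simp only [hr, if_true]
      exact continuous_const.mul ((cont_dX (u q) (hC q)).comp (hplc q i))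
    · simp only [hr, if_false]
      exact continuous_const
  have hWy : Continuous fun z : ℝ × ℝ => P.Wy u ρ z.1 z.2 := by
    unfold Packing.Wy
    refine continuous_finsetSum _ fun q _ => continuous_finsetSum _ fun i _ => ?_
    by_cases hr : P.r q i = ρ
    · simp only [hr, if_true]
      exact continuous_const.mul ((cont_dY (u q) (hC q)).comp (hplc q i))
    · simp only [hr, if_false]
      exact continuous_const
  refine ⟨hW, hWx, hWy, ?_, ?_, ?_⟩
  · intro x y
    unfold Packing.W Packing.Wx
    refine HasDerivAt.fun_sum fun q _ => HasDerivAt.fun_sum fun i _ => ?_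
    by_cases hr : P.r q i = ρ
    · simp only [hr, if_true]
      exact ((h1 (u q) (hC q) _ _ _ _ _).2 x y).1
    · simp only [hr, if_false]
      exact hasDerivAt_const _ _
  · intro x y
    unfold Packing.W Packing.Wy
    refine HasDerivAt.fun_sum fun q _ => HasDerivAt.fun_sum fun i _ => ?_
    by_cases hr : P.r q i = ρ
    · simp only [hr, if_true]
      exact ((h1 (u q) (hC q) _ _ _ _ _).2 x y).2
    · simp only [hr, if_false]
      exact hasDerivAt_const _ _
  · intro x hx y hy
    have hcl : IsClosed {z : ℝ | P.W u ρ z y = 0} := by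
      have : Continuous fun z : ℝ => P.W u ρ z y :=
        hW.comp (continuous_id.prodMk continuous_const)
      exact isClosed_singleton.preimage this
    have hsub : closure (Ioo 0 (P.L ρ)) ⊆ {z : ℝ | P.W u ρ z y = 0} := by
      refine closure_minimal ?_ hcl
      intro z hz
      exact ((h2 Ω hΩ P u hu ρ z hz y).2.2 hy).1
    rw [closure_Ioo (P.L_pos ρ).ne] at hsub
    exact hsub hx

end Pool.Agent.Work.MP_33c50c_an.PK
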