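import Pool.Agent.Work.MP_33c50c_an.PK.I_Lat1
import Pool.Agent.Work.MP_33c50c_an.PK.I_Lat
import Pool.Agent.Work.MP_33c50c_an.PK.I_Sin
import Pool.Agent.Work.MP_33c50c_an.PK.I_Cos
import Pool.Agent.Work.MP_33c50c_an.PK.I_Bsin
import Pool.Agent.Work.MP_33c50c_an.PK.I_Bcos
import Pool.Agent.Work.MP_33c50c_an.PK.I_OneX
import Pool.Agent.Work.MP_33c50c_an.PK.I_OneY
import Pool.Agent.Work.MP_33c50c_an.PK.I_Rect
import Pool.Agent.Work.MP_33c50c_an.PK.I_Pieces
import Pool.Agent.Work.MP_33c50c_an.PK.I_PlaceD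
import Pool.Agent.Work.MP_33c50c_an.PK.I_Wreg
import Pool.Agent.Work.MP_33c50c_an.PK.I_Wpt
import Pool.Agent.Work.MP_33c50c_an.PK.I_Wmass
import Pool.Agent.Work.MP_33c50c_an.PK.I_Wen
import Pool.Agent.Work.MP_33c50c_an.PK.I_Comb
import Pool.Agent.Work.MP_33c50c_an.PK.I_Count
import Pool.Agent.Work.MP_33c50c_an.PK.I_Bound
import Pool.Agent.Work.MP_33c50c_an.PK.I_Perfect
import Pool.Agent.Work.MP_33c50c_an.PK.I_Vol
import Pool.Agent.Work.MP_33c50c_an.PK.I_SymP
import Pool.Agent.Work.MP_33c50c_an.PK.I_Sym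
import Pool.Agent.Work.MP_33c50c_an.PK.I_LipP
import Pool.Agent.Work.MP_33c50c_an.PK.I_Lip

set_option autoImplicit false

namespace Pool.Agent.Work.MP_33c50c_an.PK

theorem main : Statement := by
  have hlat : SLat := Lat_proof Lat1_proof
  have honeX : SOneX := OneX_proof Cos_proof Bsin_proof
  have honeY : SOneY := OneY_proof Bcos_proof
  have hrect : SRect := Rect_proof Sin_proof Bsin_proof honeX honeY
  have hpt : SWpt := Wpt_proof
  have hreg : SWreg := Wreg_proof PlaceD_proof hpt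
  have hmass : SWmass := Wmass_proof hpt Pieces_proof hreg
  have hen : SWen := Wen_proof hpt Pieces_proof hreg
  have hcomb : SComb := Comb_proof hrect hreg hmass hen
  have hcount : SCount := Count_proof hcomb hreg
  have hbound : SBound := Bound_proof hcount hlat
  have hperf : SPerfect := Perfect_proof hbound
  exact ⟨hbound, hperf, Sym_proof hperf SymP_proof Vol_proof, Lip_proof hbound LipP_proof Vol_proof⟩

end Pool.Agent.Work.MP_33c50c_an.PK
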