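import Mathlib
import Pool.Agent.Work.MP_33c50c_an.PK.Defs
import Pool.Agent.Work.MP_33c50c_an.Cyl1

set_option autoImplicit false

open MeasureTheory Set
open scoped ENNReal ContDiff

namespace Pool.Agent.Work.MP_33c50c_an.PK

open Pool.Agent.Work.MP_33c50c_an

/-- lattice points in a thin ellipse. -/
def SLat : Prop :=
  ∀ L H μ : ℝ, 0 < L → 0 ≤ H → 4 * H ≤ L → 0 < μ → ∃ S : Finset (ℕ × ℕ),
    (∀ n m : ℕ, 1 ≤ m → (n * H) ^ 2 + (m * L) ^ 2 < (μ * L * H / Real.pi) ^ 2 → (n, m) ∈ S) ∧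
    (S.card : ℝ) ≤ L * μ * max 0 (H * μ - 1 / 4) / (4 * Real.pi)

/-- the elementary inequality behind `SLat`. -/
def SLat1 : Prop :=
  ∀ (K : ℕ) (b : ℝ), 1 ≤ K → 0 < b → b ≤ 1 →
    ∑ m ∈ Finset.Icc 1 K, Real.sqrt ((K + b) ^ 2 - (m : ℝ) ^ 2) + K / 4 + (K + b) / 16 ≤
      Real.pi / 4 * (K + b) ^ 2

/-- Parseval for sines. -/
def SSin : Prop :=
  ∀ H : ℝ, 0 < H → ∀ g : ℝ → ℝ, Continuous g → g 0 = 0 → g H = 0 →
    HasSum (fun m : ℕ => 2 / H * (∫ y in (0:ℝ)..H, g y * Real.sin ((m + 1) * Real.pi * y / H)) ^ 2)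
      (∫ y in (0:ℝ)..H, g y ^ 2)

/-- Parseval for cosines. -/
def SCos : Prop :=
  ∀ L : ℝ, 0 < L → ∀ a : ℝ → ℝ, Continuous a →
    HasSum (fun n : ℕ => (if n = 0 then 1 else 2) / L *
      (∫ x in (0:ℝ)..L, a x * Real.cos (n * Real.pi * x / L)) ^ 2) (∫ x in (0:ℝ)..L, a x ^ 2)

/-- Bessel for sines. -/
def SBsin : Prop :=
  ∀ H : ℝ, 0 < H → ∀ g : ℝ → ℝ, Continuous g → ∀ K : ℕ,
    ∑ m ∈ Finset.range K,
      2 / H * (∫ y in (0:ℝ)..H, g y * Real.sin ((m + 1) * Real.pi * y / H)) ^ 2 ≤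
      ∫ y in (0:ℝ)..H, g y ^ 2

/-- Bessel for cosines. -/
def SBcos : Prop :=
  ∀ H : ℝ, 0 < H → ∀ g : ℝ → ℝ, Continuous g → ∀ K : ℕ,
    ∑ m ∈ Finset.range K,
      2 / H * (∫ y in (0:ℝ)..H, g y * Real.cos ((m + 1) * Real.pi * y / H)) ^ 2 ≤
      ∫ y in (0:ℝ)..H, g y ^ 2

/-- the one dimensional inequality in the direction `x`. -/
def SOneX : Prop :=
  ∀ L : ℝ, 0 < L → ∀ κ : ℝ, 0 ≤ κ → ∀ a a' : ℝ → ℝ, Continuous a' →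
    (∀ x, HasDerivAt a (a' x) x) →
    (∀ n : ℕ, n * Real.pi / L < κ → ∫ x in (0:ℝ)..L, a x * Real.cos (n * Real.pi * x / L) = 0) →
    κ ^ 2 * ∫ x in (0:ℝ)..L, a x ^ 2 ≤ ∫ x in (0:ℝ)..L, a' x ^ 2

/-- the one dimensional inequality in the direction `y`. -/
def SOneY : Prop :=
  ∀ H : ℝ, 0 < H → ∀ g g' : ℝ → ℝ, Continuous g' → (∀ y, HasDerivAt g (g' y) y) →
    g 0 = 0 → g H = 0 → ∀ K : ℕ,
    ∑ m ∈ Finset.range K, ((m + 1) * Real.pi / H) ^ 2 *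
      (2 / H * (∫ y in (0:ℝ)..H, g y * Real.sin ((m + 1) * Real.pi * y / H)) ^ 2) ≤
      ∫ y in (0:ℝ)..H, g' y ^ 2

/-- the inequality on a rectangle. -/
def SRect : Prop :=
  ∀ L H μ : ℝ, 0 < L → 0 < H → 0 < μ → ∀ W Wx Wy : ℝ → ℝ → ℝ,
    (Continuous fun q : ℝ × ℝ => W q.1 q.2) → (Continuous fun q : ℝ × ℝ => Wx q.1 q.2) →
    (Continuous fun q : ℝ × ℝ => Wy q.1 q.2) →
    (∀ x y, HasDerivAt (fun τ => W τ y) (Wx x y) x) →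
    (∀ x y, HasDerivAt (fun τ => W x τ) (Wy x y) y) →
    (∀ x ∈ Icc 0 L, W x 0 = 0 ∧ W x H = 0) →
    (∀ n m : ℕ, 1 ≤ m → (n * H) ^ 2 + (m * L) ^ 2 < (μ * L * H / Real.pi) ^ 2 →
      ∫ x in (0:ℝ)..L, ∫ y in (0:ℝ)..H,
        W x y * (Real.cos (n * Real.pi * x / L) * Real.sin (m * Real.pi * y / H)) = 0) →
    μ ^ 2 * (∫ x in (0:ℝ)..L, ∫ y in (0:ℝ)..H, W x y ^ 2) ≤
      ∫ x in (0:ℝ)..L, ∫ y in (0:ℝ)..H, (Wx x y ^ 2 + Wy x y ^ 2)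

/-- an integral over the cylinder as a sum over the pieces. -/
def SPieces : Prop :=
  ∀ F : Cyl → ℝ, Continuous F → HasCompactSupport F → ∀ (n : ℕ) (t w : ℕ → ℝ) (sx sy : ℕ → Bool)
    (c : ℕ → ℝ), t n = t 0 + 2 * Real.pi → (∀ i < n, 0 < w i ∧ t (i + 1) = t i + w i) →
    ∫ p, F p = ∑ i ∈ Finset.range n,
      ∫ x in (0:ℝ)..(w i), ∫ y, F (place (t i) (w i) (sx i) (sy i) (c i) x y)

/-- derivatives of a placed function. -/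
def SPlaceD : Prop :=
  ∀ u : Cyl → ℝ, ContDiff ℝ 1 (lft u) → ∀ (a w : ℝ) (sx sy : Bool) (c : ℝ),
    (Continuous fun q : ℝ × ℝ => place a w sx sy c q.1 q.2) ∧
    ∀ x y : ℝ,
    HasDerivAt (fun τ => u (place a w sx sy c τ y))
      ((if sx then -1 else 1) * dX u (place a w sx sy c x y)) x ∧
    HasDerivAt (fun τ => u (place a w sx sy c x τ))
      ((if sy then -1 else 1) * dY u (place a w sx sy c x y)) y

section W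
variable {Ω : Set Cyl} (P : Packing Ω)

/-- the placement of the piece `(q, i)`. -/
noncomputable def Packing.pl (q : Fin P.p) (i : ℕ) (x y : ℝ) : Cyl :=
  place (P.t q i) (P.L (P.r q i)) (P.sx q i) (P.sy q i) (P.c q i) x y

/-- the superposition of the transplanted functions in the rectangle `ρ`. -/
noncomputable def Packing.W (u : Fin P.p → Cyl → ℝ) (ρ : Fin P.nR) (x y : ℝ) : ℝ :=
  ∑ q, ∑ i ∈ Finset.range (P.n q), if P.r q i = ρ then u q (P.pl q i x y) else 0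

/-- its `x` derivative. -/
noncomputable def Packing.Wx (u : Fin P.p → Cyl → ℝ) (ρ : Fin P.nR) (x y : ℝ) : ℝ :=
  ∑ q, ∑ i ∈ Finset.range (P.n q), if P.r q i = ρ then
    (if P.sx q i then -1 else 1) * dX (u q) (P.pl q i x y) else 0

/-- its `y` derivative. -/
noncomputable def Packing.Wy (u : Fin P.p → Cyl → ℝ) (ρ : Fin P.nR) (x y : ℝ) : ℝ :=
  ∑ q, ∑ i ∈ Finset.range (P.n q), if P.r q i = ρ then
    (if P.sy q i then -1 else 1) * dY (u q) (P.pl q i x y) else 0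

end W

/-- regularity of the superposition. -/
def SWreg : Prop :=
  ∀ Ω : Set Cyl, IsOpen Ω → ∀ P : Packing Ω, ∀ u : Fin P.p → Cyl → ℝ, (∀ q, IsTest Ω (u q)) →
    ∀ ρ : Fin P.nR,
    (Continuous fun q : ℝ × ℝ => P.W u ρ q.1 q.2) ∧ (Continuous fun q : ℝ × ℝ => P.Wx u ρ q.1 q.2) ∧
    (Continuous fun q : ℝ × ℝ => P.Wy u ρ q.1 q.2) ∧
    (∀ x y, HasDerivAt (fun τ => P.W u ρ τ y) (P.Wx u ρ x y) x) ∧
    (∀ x y, HasDerivAt (fun τ => P.W u ρ x τ) (P.Wy u ρ x y) y) ∧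
    (∀ x ∈ Icc 0 (P.L ρ), ∀ y : ℝ, ¬ (0 < y ∧ y < P.H ρ) → P.W u ρ x y = 0)

/-- squares of the superposition at a point. -/
def SWpt : Prop :=
  ∀ Ω : Set Cyl, IsOpen Ω → ∀ P : Packing Ω, ∀ u : Fin P.p → Cyl → ℝ, (∀ q, IsTest Ω (u q)) →
    ∀ ρ : Fin P.nR, ∀ x ∈ Ioo 0 (P.L ρ), ∀ y : ℝ,
    (P.W u ρ x y ^ 2 =
      ∑ q, ∑ i ∈ Finset.range (P.n q), if P.r q i = ρ then u q (P.pl q i x y) ^ 2 else 0) ∧
    (P.Wx u ρ x y ^ 2 + P.Wy u ρ x y ^ 2 =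
      ∑ q, ∑ i ∈ Finset.range (P.n q), if P.r q i = ρ then
        dX (u q) (P.pl q i x y) ^ 2 + dY (u q) (P.pl q i x y) ^ 2 else 0) ∧
    (¬ (0 < y ∧ y < P.H ρ) → P.W u ρ x y = 0 ∧ P.Wx u ρ x y = 0 ∧ P.Wy u ρ x y = 0)

/-- the masses. -/
def SWmass : Prop :=
  ∀ Ω : Set Cyl, IsOpen Ω → ∀ P : Packing Ω, ∀ u : Fin P.p → Cyl → ℝ, (∀ q, IsTest Ω (u q)) →
    ∑ q, mass (u q) = ∑ ρ, ∫ x in (0:ℝ)..(P.L ρ), ∫ y in (0:ℝ)..(P.H ρ), P.W u ρ x y ^ 2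

/-- the energies. -/
def SWen : Prop :=
  ∀ Ω : Set Cyl, IsOpen Ω → ∀ P : Packing Ω, ∀ u : Fin P.p → Cyl → ℝ, (∀ q, IsTest Ω (u q)) →
    ∑ q, energy (u q) = ∑ ρ, ∫ x in (0:ℝ)..(P.L ρ), ∫ y in (0:ℝ)..(P.H ρ),
      (P.Wx u ρ x y ^ 2 + P.Wy u ρ x y ^ 2)

/-- the coefficient of the superposition. -/
noncomputable def Packing.coef {Ω : Set Cyl} (P : Packing Ω) (u : Fin P.p → Cyl → ℝ)
    (ρ : Fin P.nR) (n m : ℕ) : ℝ :=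
  ∫ x in (0:ℝ)..(P.L ρ), ∫ y in (0:ℝ)..(P.H ρ), P.W u ρ x y *
    (Real.cos (n * Real.pi * x / P.L ρ) * Real.sin (m * Real.pi * y / P.H ρ))

/-- the energy inequality. -/
def SComb : Prop :=
  ∀ Ω : Set Cyl, IsOpen Ω → ∀ P : Packing Ω, ∀ u : Fin P.p → Cyl → ℝ, (∀ q, IsTest Ω (u q)) →
    ∀ μ : ℝ, 0 < μ → (∀ (ρ : Fin P.nR) (n m : ℕ), 1 ≤ m →
      (n * P.H ρ) ^ 2 + (m * P.L ρ) ^ 2 < (μ * P.L ρ * P.H ρ / Real.pi) ^ 2 →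
      P.coef u ρ n m = 0) → μ ^ 2 * ∑ q, mass (u q) ≤ ∑ q, energy (u q)

/-- the count. -/
def SCount : Prop :=
  ∀ Ω : Set Cyl, IsOpen Ω → ∀ P : Packing Ω, ∀ V : Submodule ℝ (Cyl → ℝ), (∀ u ∈ V, IsTest Ω u) →
    ∀ k : ℕ, Module.finrank ℝ V = k → 1 ≤ k → ∀ lam μ : ℝ, 0 < μ → lam < μ ^ 2 →
    (∀ u ∈ V, energy u ≤ lam * mass u) → ∀ S : Fin P.nR → Finset (ℕ × ℕ),
    (∀ (ρ : Fin P.nR) (n m : ℕ), 1 ≤ m →
      (n * P.H ρ) ^ 2 + (m * P.L ρ) ^ 2 < (μ * P.L ρ * P.H ρ / Real.pi) ^ 2 → (n, m) ∈ S ρ) →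
    P.p * k ≤ ∑ ρ, (S ρ).card

/-- the volume of a graph domain. -/
def SVol : Prop :=
  ∀ f h : AddCircle (2 * Real.pi) → ℝ, Continuous f → Continuous h → (∀ θ, 0 ≤ h θ) →
    IsOpen (graphDomain f h) ∧ ∀ a : ℝ,
    volume (graphDomain f h) =
      ENNReal.ofReal (∫ x in a..(a + 2 * Real.pi), h (x : AddCircle (2 * Real.pi)))

/-- the packing of a graph domain with symmetric pieces. -/
def SSymP : Prop :=
  ∀ h : AddCircle (2 * Real.pi) → ℝ, Continuous h → (∀ θ, 0 ≤ h θ) →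
    ∀ (n : ℕ) (t : ℕ → ℝ), t n = t 0 + 2 * Real.pi →
    (∀ i < n, t i < t (i + 1) ∧
      4 * (h (t i : AddCircle (2 * Real.pi)) + h (t (i + 1) : AddCircle (2 * Real.pi))) ≤
        t (i + 1) - t i ∧
      ∀ x ∈ Icc (t i) (t (i + 1)),
        h (x : AddCircle (2 * Real.pi)) + h ((t i + t (i + 1) - x : ℝ) : AddCircle (2 * Real.pi)) =
        h (t i : AddCircle (2 * Real.pi)) + h (t (i + 1) : AddCircle (2 * Real.pi))) →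
    ∃ P : Packing (graphDomain 0 h), P.p = 2 ∧ ∑ ρ, P.L ρ * P.H ρ =
      ∑ i ∈ Finset.range n, (t (i + 1) - t i) *
        (h (t i : AddCircle (2 * Real.pi)) + h (t (i + 1) : AddCircle (2 * Real.pi)))

/-- the packing of a Lipschitz graph domain: `m` pieces of the same width `w`. -/
def SLipP : Prop :=
  ∀ (f h : AddCircle (2 * Real.pi) → ℝ) (s η : ℝ), 0 < s → s ≤ 1 / 12 → 0 < η →
    (∀ θ φ, |f θ - f φ| ≤ s * dist θ φ) → (∀ θ φ, |h θ - h φ| ≤ s * dist θ φ) →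
    (∀ θ, 0 ≤ h θ ∧ h θ ≤ η) → ∀ m : ℕ, 1 ≤ m → 8 * η ≤ 2 * Real.pi / m →
    ∃ P : Packing (graphDomain f h), P.p = 1 ∧ ∀ lam : ℝ, 0 ≤ lam →
      P.bound lam ≤ ∑ i ∈ Finset.range m, (2 * Real.pi / m) * Real.sqrt lam *
        max 0 ((h (((i + 1 / 2) * (2 * Real.pi / m) : ℝ) : AddCircle (2 * Real.pi)) +
          3 / 2 * s * (2 * Real.pi / m)) * Real.sqrt lam - 1 / 4) / (4 * Real.pi)

end Pool.Agent.Work.MP_33c50c_an.PK
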